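import Pool.Agent.Q123.NS.Cts
import Pool.Agent.TH945.KQ.YALL

/-!
# Counting words with blocks in a polygon with many contacts
-/

set_option autoImplicit false

namespace Q123.NS

open Finset Filter Topology KN KN.KQ
open scoped Classical

noncomputable section

variable {𝒬 : List V → Prop}

/-- the multiplicity constant of one insertion -/
@[irreducible] def Qc : ℕ := 6 * (6 * (3 * 13 ^ 3))

open KN.KQ.K3YCNT in
/-- the counting, for subsets -/
theorem count' (hrtc : T_rtc) (T L : ℕ) (v : ℕ → List Dir) (N n : ℕ)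
    (S S' : Finset (List Sz)) (hS : S ⊆ VZ 𝒬 T L v N n) (C : List Sz → Finset Z3)
    (h : ∀ W ∈ S, ∀ x ∈ C W, ∃ (d f : Dir) (A B : List Sz), perp d f ∧
      A ++ .bl N .xp .zp :: B ∈ S' ∧ near 6 (pos (EZ T v B)) (Rp d f x) ∧
      RlZ W d f A B) :
    ∑ W ∈ S, (C W).card ≤ S'.card * Qc := by
  rw [← Finset.card_sigma]
  have hcard : (S' ×ˢ ((univ : Finset Dir) ×ˢ
      ((univ : Finset Dir) ×ˢ ((univ : Finset (Fin 3)) ×ˢ box 6 0)))).card =
      S'.card * Qc := by
    unfold Qc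
    rw [card_product, card_product, card_product, card_product, card_box,
      card_univ, card_univ]
    have e1 : Fintype.card Dir = 6 := rfl
    have e2 : Fintype.card (Fin 3) = 3 := rfl
    rw [e1, e2]
  rw [← hcard]
  apply Finset.card_le_card_of_forall_subsingleton
    (fun (p : (_ : List Sz) × Z3) (q : List Sz × Dir × Dir × Fin 3 × Z3) =>
      ∃ A B : List Sz, perp q.2.1 q.2.2.1 ∧ q.1 = A ++ .bl N .xp .zp :: B ∧ N ∉ lab A ∧
        Ra q.2.2.2.1 p.1 q.2.1 q.2.2.1 A B ∧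
        q.2.2.2.2 = Rp q.2.1 q.2.2.1 p.2 - pos (EZ T v B))
  · rintro ⟨W, x⟩ hp
    rw [mem_sigma] at hp
    obtain ⟨hW, hx⟩ := hp
    simp only at hW hx
    obtain ⟨d, f, A, B, h1, h2, h3, h4⟩ := h W hW x hx
    obtain ⟨i, hi⟩ := exists_Ra h4
    obtain ⟨k1, k2⟩ := Ra_lab hi
    have hW' := (q_mem T L v N n W).1 (hS hW)
    have hN : N ∉ lab A ++ lab B := by
      rw [k1]
      intro hN
      have := hW'.2.1.mem_iff.1 hN
      exact absurd this (by simp)
    refine ⟨(A ++ .bl N .xp .zp :: B, d, f, i, Rp d f x - pos (EZ T v B)), ?_, A, B, h1, rfl,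
      fun hA => hN (List.mem_append_left _ hA), hi, rfl⟩
    simp only [mem_product, mem_univ, true_and]
    refine ⟨h2, ?_⟩
    rw [mem_box]
    unfold near at h3 ⊢
    obtain ⟨h5, h6, h7⟩ := h3
    rw [abs_sub_comm] at h5 h6 h7
    refine ⟨?_, ?_, ?_⟩
    · simpa using h5
    · simpa using h6
    · simpa using h7
  · rintro ⟨W', d, f, i, y⟩ _ ⟨W₁, x₁⟩ h1 ⟨W₂, x₂⟩ h2
    simp only [Set.mem_ofPred_eq] at h1 h2
    obtain ⟨-, A, B, hp, e1, e2, e3, e4⟩ := h1
    obtain ⟨-, A', B', -, e1', e2', e3', e4'⟩ := h2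
    rw [e1] at e1'
    obtain ⟨rfl, rfl⟩ := split_unique N A A' B B' _ _ _ _ e2 e2' e1'
    have hW : W₁ = W₂ := (List.map_injective_iff.2 (rZ_inj hrtc hp)) (Ra_unique e3 e3')
    have hx : x₁ = x₂ := by
      rw [e4] at e4'
      exact Rp_inj hrtc hp (sub_left_injective e4')
    subst hW hx
    rfl

theorem EZ_app (T : ℕ) (v : ℕ → List Dir) (A B : List Sz) :
    EZ T v (A ++ B) = EZ T v A ++ EZ T v B := by
  simp [EZ, List.flatMap_append]

theorem EZ_cons (T : ℕ) (v : ℕ → List Dir) (s : Sz) (W : List Sz) :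
    EZ T v (s :: W) = szw T v s ++ EZ T v W := by
  simp [EZ, List.flatMap_cons]

theorem pos_blk {L B : ℕ} {v : ℕ → List Dir} (hv : SmB L B v) (T i : ℕ) :
    pos (blk T (v i)) = vec .zp := by
  have h := (e_bas T L B v hv [.bl i .xp .zp]).1
  have e1 : EZ T v [.bl i .xp .zp] = blk T (v i) := by
    rw [EZ_cons]
    show (blk T (v i)).map (rt .xp .zp) ++ [] = _
    rw [KN.KQ.K3YINS.map_rt_id, List.append_nil]
  rw [e1] at h
  rw [h]
  show (0 : Z3) + vec .zp = vec .zp
  rw [zero_add]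

/-- the loss of contacts by one insertion -/
def kap (R T B : ℕ) : ℕ := (2 * ((B + 2 * T + 2) + 2 * R + 2) + 1) ^ 3

/-- one insertion destroys a bounded number of contacts -/
theorem ct_ins {R T L B : ℕ} {v : ℕ → List Dir} (hv : SmB L B v) {W A B' : List Sz} {d f : Dir}
    (hp : perp d f) (hW : VaZ 𝒬 T L v W) (hrel : RlZ W d f A B') (i : ℕ) :
    ct R (EZ T v W) ≤ ct R (EZ T v (A ++ .bl i .xp .zp :: B')) + kap R T B := by
  have h1 := ct_rot T_rtc_proof R hp (EZ T v W)
  have h2 := ((e_bas T L B v hv W).2.2.2.2 d f hp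
    (fun A B' i d' f' h => (hW.room A B' i d' f' h).1)).1
  rw [h2] at h1
  refine h1.trans ?_
  have hb := KN.KQ.K3YINS.blk_le hv T i
  have hpb := pos_blk hv T i
  have eW : EZ T v (A ++ .bl i .xp .zp :: B') = EZ T v A ++ (blk T (v i) ++ EZ T v B') := by
    rw [EZ_app, EZ_cons]
    show EZ T v A ++ ((blk T (v i)).map (rt .xp .zp) ++ EZ T v B') = _
    rw [KN.KQ.K3YINS.map_rt_id]
  rw [eW]
  unfold kap
  rcases hrel with h | ⟨M, hM, h⟩ | ⟨M, hM, h⟩
  · have e1 : EZ T v (W.map (rZ d f)) = EZ T v A ++ ([.zp] ++ EZ T v B') := by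
      rw [h, EZ_app, EZ_cons]; rfl
    rw [e1]
    refine ct_change R (l1 := EZ T v A) (m := [.zp]) (m' := blk T (v i)) (l2 := EZ T v B')
      ?_ (ρ := B + 2 * T + 2) ?_ ?_
    · rw [hpb]
      show (0 : Z3) + vec .zp = vec .zp
      rw [zero_add]
    · simp
    · omega
  · have e1 : EZ T v (W.map (rZ d f)) = EZ T v M ++ ([.zp, .xm] ++ EZ T v B') := by
      rw [h, EZ_app, EZ_cons, EZ_cons]; rfl
    have e2 : EZ T v A ++ (blk T (v i) ++ EZ T v B') =
        EZ T v M ++ ((.xm :: blk T (v i)) ++ EZ T v B') := by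
      rw [hM, EZ_app, List.append_assoc]; rfl
    rw [e1, e2]
    refine ct_change R (l1 := EZ T v M) (m := [.zp, .xm]) (m' := .xm :: blk T (v i))
      (l2 := EZ T v B') ?_ (ρ := B + 2 * T + 2) ?_ ?_
    · show (0 : Z3) + vec .xm + vec .zp = pos (blk T (v i)) + vec .xm
      rw [hpb]
      decide
    · simp
    · rw [List.length_cons]; omega
  · have e1 : EZ T v (W.map (rZ d f)) = EZ T v A ++ ([.xp, .zp] ++ EZ T v M) := by
      rw [h, EZ_app, EZ_cons, EZ_cons]; rfl
    have e2 : EZ T v A ++ (blk T (v i) ++ EZ T v B') =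
        EZ T v A ++ ((blk T (v i) ++ [.xp]) ++ EZ T v M) := by
      rw [hM, EZ_cons, List.append_assoc]; rfl
    have e3 : pos ([.xp, .zp] : List Dir) = pos (blk T (v i) ++ [.xp]) := by
      rw [pos_append, hpb]
      decide
    have e4 : ([.xp, .zp] : List Dir).length ≤ B + 2 * T + 2 := by
      simp
    have e5 : (blk T (v i) ++ [Dir.xp]).length ≤ B + 2 * T + 2 := by
      rw [List.length_append, List.length_singleton]
      omega
    have e6 := ct_change R (l1 := EZ T v A) (l2 := EZ T v M) e3 e4 e5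
    rw [e1, e2]
    exact e6

/-- words with `N` blocks whose polygon has at least `s - N κ` contacts -/
def SN (𝒬 : List V → Prop) (R T L B : ℕ) (v : ℕ → List Dir) (s N n : ℕ) : Finset (List Sz) :=
  (VZ 𝒬 T L v N n).filter (fun W => s ≤ ct R (EZ T v W) + N * kap R T B)

/-- the number of contacts which may be lost for one block -/
def los (R T L B : ℕ) : ℕ := kap R T B + (2 * raZ T L B + 1) ^ 3

theorem step (hQ : TC 𝒬) {R T L B : ℕ} {v : ℕ → List Dir} (hv : SmB L B v) (hLL : LLat T L R)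
    (s N n : ℕ) (hN : 2 * (N * los R T L B + 2197) ≤ s) :
    s * (SN 𝒬 R T L B v s N n).card ≤ (SN 𝒬 R T L B v s (N + 1) n).card * (2 * Qc) := by
  set r := raZ T L B with hr
  set C : List Sz → Finset Z3 := fun W =>
    ((cset R (path (EZ T v W)).toFinset).filter (fun x => ¬ near 6 x 0)).filter
      (fun x => faZ T v r W x) with hC
  have hlow : ∀ W ∈ SN 𝒬 R T L B v s N n, s ≤ 2 * (C W).card := by
    intro W hW
    unfold SN at hW
    rw [mem_filter, q_mem] at hW
    obtain ⟨⟨hW1, hW2, hW3⟩, hW4⟩ := hW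
    have h1 := Finset.card_filter_add_card_filter_not
      (s := cset R (path (EZ T v W)).toFinset) (fun x => near 6 x 0)
    have h2 := K2MANY.card_near (cset R (path (EZ T v W)).toFinset)
    set C1 := (cset R (path (EZ T v W)).toFinset).filter (fun x => ¬ near 6 x 0) with hC1
    have h3 := Finset.card_filter_add_card_filter_not (s := C1) (fun x => faZ T v r W x)
    have hbad : (C1.filter (fun x => ¬ faZ T v r W x)).card ≤ N * (2 * r + 1) ^ 3 := by
      have hsub : C1.filter (fun x => ¬ faZ T v r W x) ⊆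
          (KN.KQ.K3YCNT.bps T v W).toFinset.biUnion (fun q => bx r q) := by
        intro x hx
        rw [mem_filter] at hx
        obtain ⟨-, hx⟩ := hx
        unfold faZ at hx
        push Not at hx
        obtain ⟨A, B', i, d, f, hAB, hx⟩ := hx
        rw [mem_biUnion]
        refine ⟨pos (EZ T v B'), ?_, mem_bx.2 hx⟩
        rw [List.mem_toFinset, hAB]
        exact KN.KQ.K3YCNT.mem_bps T v A B' i d f
      refine (card_le_card hsub).trans ?_
      refine (card_biUnion_le_card_mul _ _ ((2 * r + 1) ^ 3) (fun q _ => (card_bx r q).le)).trans ?_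
      apply Nat.mul_le_mul_right
      refine (List.toFinset_card_le _).trans ?_
      rw [KN.KQ.K3YCNT.bps_length, hW2.length_eq, List.length_range]
    have h4 : (cset R (path (EZ T v W)).toFinset).card = ct R (EZ T v W) := rfl
    have h5 : (C W).card = (C1.filter (fun x => faZ T v r W x)).card := rfl
    have h6 : N * los R T L B = N * kap R T B + N * (2 * r + 1) ^ 3 := by
      unfold los
      rw [Nat.mul_add]
    omega
  have key := count' T_rtc_proof T L v N n (SN 𝒬 R T L B v s N n) (SN 𝒬 R T L B v s (N + 1) n)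
    (Finset.filter_subset _ _) C (by
    intro W hW x hx
    unfold SN at hW
    rw [mem_filter, q_mem] at hW
    obtain ⟨⟨hW1, hW2, hW3⟩, hW4⟩ := hW
    rw [hC] at hx
    simp only [mem_filter] at hx
    obtain ⟨⟨h1, h2⟩, h3⟩ := hx
    rw [mem_cset] at h1
    obtain ⟨-, N', h5⟩ := h1
    have e : {p | p ∈ (path (EZ T v W)).toFinset} = {p | p ∈ path (EZ T v W)} := by
      ext p; simp
    rw [e] at h5
    obtain ⟨d, f, A, B', k1, k2, k3, k4⟩ := q_con hQ T L B R v hv hLL W hW3 x N' h5 h2 h3 N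
    refine ⟨d, f, A, B', k1, ?_, k3, k4⟩
    unfold SN
    rw [mem_filter, q_mem]
    obtain ⟨i, hi⟩ := KN.KQ.K3YCNT.exists_Ra k4
    obtain ⟨l1, l2⟩ := KN.KQ.K3YCNT.Ra_lab hi
    refine ⟨⟨by rw [l2 N, hW1], ?_, k2⟩, ?_⟩
    · rw [KN.KQ.K3YCNT.lab_append, KN.KQ.K3YCNT.lab_cons_bl]
      refine List.perm_middle.trans ?_
      rw [l1, List.range_succ]
      refine (hW2.cons N).trans ?_
      exact (List.perm_append_singleton N (List.range N)).symm
    · have := ct_ins (R := R) hv k1 hW3 k4 N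
      rw [Nat.add_mul, one_mul]
      omega)
  have hsum : (SN 𝒬 R T L B v s N n).card * s ≤ 2 * ∑ W ∈ SN 𝒬 R T L B v s N n, (C W).card := by
    rw [Finset.mul_sum]
    have := Finset.card_nsmul_le_sum (SN 𝒬 R T L B v s N n) (fun W => 2 * (C W).card) s hlow
    simpa using this
  calc s * (SN 𝒬 R T L B v s N n).card = (SN 𝒬 R T L B v s N n).card * s := Nat.mul_comm _ _
    _ ≤ 2 * ∑ W ∈ SN 𝒬 R T L B v s N n, (C W).card := hsum
    _ ≤ 2 * ((SN 𝒬 R T L B v s (N + 1) n).card * Qc) := Nat.mul_le_mul_left _ key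
    _ = _ := by ring

theorem grow (hQ : TC 𝒬) {R T L B : ℕ} {v : ℕ → List Dir} (hv : SmB L B v) (hLL : LLat T L R)
    (s n : ℕ) : ∀ N : ℕ, 2 * (N * los R T L B + 2197) ≤ s →
    s ^ N * (SN 𝒬 R T L B v s 0 n).card ≤ (2 * Qc) ^ N * (SN 𝒬 R T L B v s N n).card := by
  intro N
  induction N with
  | zero => intro _; simp
  | succ N ih =>
    intro hN
    have hN' : 2 * (N * los R T L B + 2197) ≤ s := by
      have h0 : N * los R T L B ≤ (N + 1) * los R T L B := Nat.mul_le_mul_right _ (Nat.le_succ N)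
      linarith
    have h1 := ih hN'
    have h2 := step hQ hv hLL s N n hN'
    calc s ^ (N + 1) * (SN 𝒬 R T L B v s 0 n).card
        = s * (s ^ N * (SN 𝒬 R T L B v s 0 n).card) := by ring
      _ ≤ s * ((2 * Qc) ^ N * (SN 𝒬 R T L B v s N n).card) := Nat.mul_le_mul_left _ h1
      _ = (2 * Qc) ^ N * (s * (SN 𝒬 R T L B v s N n).card) := by ring
      _ ≤ (2 * Qc) ^ N * ((SN 𝒬 R T L B v s (N + 1) n).card * (2 * Qc)) :=
          Nat.mul_le_mul_left _ h2
      _ = _ := by ring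

/-- no blocks -/
theorem zero_le (R T L B : ℕ) (v : ℕ → List Dir) (s n : ℕ) :
    ((K (fun w => 𝒬 (vl w)) n).filter (fun w => s ≤ ct R w)).card ≤
      (SN 𝒬 R T L B v s 0 n).card := by
  apply card_le_card_of_injOn (fun w => w.map Sz.lt)
  · intro w hw
    rw [mem_coe, mem_filter, mem_K] at hw
    obtain ⟨⟨h1, h2, h3⟩, h4⟩ := hw
    rw [mem_coe]
    unfold SN
    rw [mem_filter, q_mem, KN.KQ.K3YZERO.EZ_map]
    refine ⟨⟨by rw [List.length_map, h1], by rw [KN.KQ.K3YZERO.lab_map]; rfl, ?_⟩, by omega⟩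
    refine ⟨?_, ?_, ?_, ?_⟩
    · rw [KN.KQ.K3YZERO.BZ_map]; exact h3
    · rw [KN.KQ.K3YZERO.BZ_map]; exact h2
    · rw [KN.KQ.K3YZERO.EZ_map]; exact h2
    · intro A B i d f h
      exfalso
      have h4 : lab (w.map Sz.lt) = [] := KN.KQ.K3YZERO.lab_map w
      have h' : w.map Sz.lt = A ++ Sz.bl i d f :: B := h
      rw [h'] at h4
      unfold lab at h4
      rw [List.filterMap_eq_nil_iff] at h4
      have := h4 (.bl i d f) (by simp)
      simp at this
  · intro w1 _ w2 _ h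
    have h1 := congrArg BZ h
    simp only at h1
    rwa [KN.KQ.K3YZERO.BZ_map, KN.KQ.K3YZERO.BZ_map] at h1

end

end Q123.NS
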