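import Pool.Agent.Q123.NS.Mul
import Pool.Agent.TH945.KQ.FNOM
import Pool.Agent.TH296.KQ.Main

/-!
# Many summands in classes of knots closed under connected sums
-/

set_option autoImplicit false

namespace Q123.NS

open Finset Filter Topology KN KN.KQ
open scoped Classical

/-- the oriented knot types of the polygons of a class -/
def Tp (Q : List Dir → Prop) : List V → Prop := fun l => ∃ w, SAP w ∧ Q w ∧ Same l (vl w)

theorem Tp_TC (Q : List Dir → Prop) : TC (Tp Q) := by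
  rintro l l' h ⟨w, h1, h2, h3⟩
  exact ⟨w, h1, h2, h.symm.trans h3⟩

theorem Tp_iff {Q : List Dir → Prop} (hQ : KClass Q) {w : List Dir} (hw : SAP w) :
    Tp Q (vl w) ↔ Q w := by
  constructor
  · rintro ⟨w', h1, h2, h3⟩
    exact hQ.same w' w h1 hw h3.symm h2
  · intro h
    exact ⟨w, hw, h, Same.refl _⟩

theorem Tp_sums {Q : List Dir → Prop} (hQ : KClass Q) (hc : CSum Q) {k : List V} (hk : Tp Q k) :
    ∀ (N : ℕ) (l : List V), SumsC (Tp Q) (fun _ => k) N l → Tp Q l := by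
  intro N
  induction N with
  | zero => intro l h; exact h
  | succ N ih =>
    rintro l ⟨l1, v, l2, hF, ht, hkv, hl⟩
    have h1 : Q (l1 ++ .zp :: l2) := (Tp_iff hQ hF.1).1 (ih _ ht)
    have h2 : Q (.zm :: v) := (Tp_iff hQ hF.2.2.1).1 (Tp_TC Q _ _ hkv.symm hk)
    exact ⟨join l1 v l2, S_glueSAP_proof l1 v l2 hF, hc l1 v l2 hF h1 h2, hl⟩

/-- the polygon `w` is a connected sum of a polygon and `M` polygons of the type `k` -/
def HasSummands (k : List V) (M : ℕ) (w : List Dir) : Prop :=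
  SumsC (fun _ => True) (fun _ => k) M (vl w)

theorem sums_pred {k : List V} : ∀ (M : ℕ) (l : List V),
    SumsC (fun _ => True) (fun _ => k) (M + 1) l → SumsC (fun _ => True) (fun _ => k) M l := by
  intro M
  induction M with
  | zero => intro l _; trivial
  | succ M ih =>
    rintro l ⟨l1, v, l2, hF, ht, hkv, hl⟩
    exact ⟨l1, v, l2, hF, ih _ ht, hkv, hl⟩

theorem sums_anti {k : List V} {M M' : ℕ} (h : M ≤ M') {l : List V}
    (hl : SumsC (fun _ => True) (fun _ => k) M' l) : SumsC (fun _ => True) (fun _ => k) M l := by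
  induction h with
  | refl => exact hl
  | step _ ih => exact ih (sums_pred _ _ hl)

theorem summands_anti {k : List V} {M M' : ℕ} (h : M ≤ M') {w : List Dir}
    (hl : HasSummands k M' w) : HasSummands k M w := sums_anti h hl

theorem sums_mono {𝒬 𝒬' : List V → Prop} (h : ∀ l, 𝒬 l → 𝒬' l) {ks : ℕ → List V} :
    ∀ (N : ℕ) (l : List V), SumsC 𝒬 ks N l → SumsC 𝒬' ks N l := by
  intro N
  induction N with
  | zero => intro l hl; exact h l hl
  | succ N ih =>
    rintro l ⟨l1, v, l2, hF, ht, hkv, hl⟩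
    exact ⟨l1, v, l2, hF, ih _ ht, hkv, hl⟩

/-- types with less than `M` summands -/
def Few (𝒬 : List V → Prop) (k : List V) (M : ℕ) : List V → Prop := fun l =>
  𝒬 l ∧ ¬ SumsC (fun _ => True) (fun _ => k) M l

theorem Few_TC {𝒬 : List V → Prop} (hQ : TC 𝒬) (k : List V) (M : ℕ) : TC (Few 𝒬 k M) := by
  rintro l l' h ⟨h1, h2⟩
  refine ⟨hQ l l' h h1, fun h3 => h2 ?_⟩
  exact KN.KQ.K3YTYPE.sums_same (fun _ _ _ h => h) h3 h.symm

theorem Few_no (𝒬 : List V → Prop) (k : List V) (N M : ℕ) :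
    NoM (Few 𝒬 k M) (fun _ => k) N M := by
  intro σ _ l hl hS
  exact hl.2 hS

/-- the blocks for one knot -/
structure Blk (k : List V) (R L : ℕ) (v : List Dir) : Prop where
  hv : SmR L v
  hk : Same (vl (.zm :: v)) k
  hR : 1 ≤ R
  hL : LLat (2 * L + 4) L R

theorem exists_blk {k : List V} (hk : ∃ w, SAP w ∧ Same (vl w) k) :
    ∃ (R L : ℕ) (v : List Dir), Blk k R L v := by
  obtain ⟨L, v, hv, hvk⟩ := T_vex_proof k hk
  obtain ⟨R, hR, hLR⟩ := d_LL (2 * L + 4) L le_rfl
  exact ⟨R, L, v, hv, hvk, hR, hLR⟩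

/-- the increment of the length by one block -/
def inc (L : ℕ) (v : List Dir) : ℕ := (blk (2 * L + 4) v).length - 1

theorem inc_even {k : List V} {R L : ℕ} {v : List Dir} (h : Blk k R L v) : inc L v % 2 = 0 := by
  have hlen : (blk (2 * L + 4) v).length = 2 * (2 * L + 4 + 1) + v.length := by
    unfold blk
    simp only [List.length_append, List.length_replicate]
    omega
  have hodd : (v.length + 1) % 2 = 0 := by
    have h2 := even_of_closed (h.hv.1.2.1)
    simpa using h2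
  unfold inc
  omega

/-- **the basic inequality** -/
theorem basic {k : List V} {R L : ℕ} {v : List Dir}
    (h : Blk k R L v) : ∃ C : ℕ, 1 ≤ C ∧ ∀ (𝒬 : List V → Prop), TC 𝒬 →
      ∀ (N M n s : ℕ), NoM 𝒬 (fun _ => k) N M →
      (N + 1) * C ≤ s → (M + 1) * C ≤ n →
      s ^ N * ((K (fun w => 𝒬 (vl w)) n).filter (fun w => s ≤ ct R w)).card ≤
        (C * (N + M)) ^ N * a (fun w => SumsC 𝒬 (fun _ => k) N (vl w)) (n + N * inc L v) := by
  set T := 2 * L + 4 with hT
  set B := (blk 0 v).length with hB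
  have hv : SmB L B (fun _ => v) := fun i => ⟨h.hv, le_rfl⟩
  set C₁ := 2 * (los R T L B + 2197) with hC₁
  set C₂ := B + 2 * T + 3 with hC₂
  set C₃ := 2 * Qc * (2 * (B + 2 * T) * 36) with hC₃
  refine ⟨C₁ + C₂ + C₃, by omega, ?_⟩
  intro 𝒬 hQ N M n s hno hs hn
  have h1 : 2 * (N * los R T L B + 2197) ≤ s := by
    refine le_trans ?_ hs
    have e1 : (N + 1) * (C₁ + C₂ + C₃) = N * C₁ + C₁ + (N + 1) * (C₂ + C₃) := by ring
    have e2 : N * C₁ = 2 * (N * los R T L B) + N * (2 * 2197) := by rw [hC₁]; ring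
    rw [e1, e2]
    omega
  have h2 : M * (B + 2 * T) + 3 ≤ n := by
    refine le_trans ?_ hn
    have e1 : (M + 1) * (C₁ + C₂ + C₃) = M * C₂ + C₂ + (M + 1) * (C₁ + C₃) := by ring
    have e2 : M * C₂ = M * (B + 2 * T) + M * 3 := by rw [hC₂]; ring
    rw [e1, e2]
    omega
  have hg := grow hQ hv h.hL s n N h1
  have hz := zero_le (𝒬 := 𝒬) R T L B (fun _ => v) s n
  have hm : (SN 𝒬 R T L B (fun _ => v) s N n).card ≤
      ((N + M) * (2 * (B + 2 * T)) * 36) ^ N *
        a (fun w => SumsC 𝒬 (fun _ => k) N (vl w)) (n + N * inc L v) := by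
    have h4 : (SN 𝒬 R T L B (fun _ => v) s N n).card ≤
        ((N + M) * (2 * (B + 2 * T)) * 36) ^ N *
        ((SN 𝒬 R T L B (fun _ => v) s N n).image (EZ T (fun _ => v))).card := by
      apply Finset.card_le_mul_card_image
      intro w _
      refine le_trans (Finset.card_le_card ?_) (mult hno hv (fun _ => h.hk) n h2 w)
      unfold SN
      intro W hW
      rw [mem_filter, mem_filter] at hW
      exact mem_filter.2 ⟨hW.1.1, hW.2⟩
    refine h4.trans (Nat.mul_le_mul_left _ ?_)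
    unfold a
    apply Finset.card_le_card
    intro w hw
    obtain ⟨W, hW, rfl⟩ := Finset.mem_image.1 hw
    unfold SN at hW
    rw [mem_filter, q_mem] at hW
    obtain ⟨⟨hW1, hW2, hW3⟩, -⟩ := hW
    rw [mem_K]
    refine ⟨?_, hW3.ext, ?_⟩
    · rw [(e_bas T L B (fun _ => v) hv W).2.2.1, hW1, (hW2.map _).sum_eq]
      simp [inc, hT]
    · exact q_type hQ (fun _ => k) T L B (fun _ => v) hv N (fun _ _ => h.hk) W hW2 hW3
  calc s ^ N * ((K (fun w => 𝒬 (vl w)) n).filter (fun w => s ≤ ct R w)).card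
      ≤ s ^ N * (SN 𝒬 R T L B (fun _ => v) s 0 n).card := Nat.mul_le_mul_left _ hz
    _ ≤ (2 * Qc) ^ N * (SN 𝒬 R T L B (fun _ => v) s N n).card := hg
    _ ≤ (2 * Qc) ^ N * (((N + M) * (2 * (B + 2 * T)) * 36) ^ N *
        a (fun w => SumsC 𝒬 (fun _ => k) N (vl w)) (n + N * inc L v)) := Nat.mul_le_mul_left _ hm
    _ = (C₃ * (N + M)) ^ N *
        a (fun w => SumsC 𝒬 (fun _ => k) N (vl w)) (n + N * inc L v) := by
        rw [← mul_assoc, ← mul_pow, hC₃]
        congr 2
        ring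
    _ ≤ _ := by
        apply Nat.mul_le_mul_right
        apply Nat.pow_le_pow_left
        apply Nat.mul_le_mul_right
        omega

/-- growth of the counts of a class closed under connected sums -/
theorem shift {Q : List Dir → Prop} (hQ : KClass Q) (hc : CSum Q) (hne : ∃ w, SAP w ∧ Q w) :
    ∃ (G : ℝ) (n₁ : ℕ), 1 ≤ G ∧ 1 ≤ n₁ ∧ ∀ n β : ℕ, n₁ ≤ n → (a Q (n + 2 * β) : ℝ) ≤
      (1 + 2 * β / n) * (G ^ β * a Q n) := by
  have h1 := (class_sum Q hQ hne hc).2.eventually
    (gt_mem_nhds (show gr Q ^ 2 < gr Q ^ 2 + 1 by linarith))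
  obtain ⟨J, hJ⟩ := eventually_atTop.1 (h1.and (class_pos Q hQ hne))
  have hstep : ∀ j : ℕ, J ≤ j → pq Q (2 * j + 2) ≤ (gr Q ^ 2 + 1) * pq Q (2 * j) := by
    intro j hj
    obtain ⟨h2, h3⟩ := hJ j hj
    rw [div_lt_iff₀ h3] at h2
    exact h2.le
  have hM : 1 ≤ gr Q ^ 2 + 1 := by nlinarith [sq_nonneg (gr Q)]
  refine ⟨gr Q ^ 2 + 1, 2 * J + 1, hM, by omega, fun n β hn => ?_⟩
  have hn0 : (0 : ℝ) < n := by
    have : 0 < n := by omega
    exact_mod_cast this
  have key : pq Q (n + 2 * β) ≤ (gr Q ^ 2 + 1) ^ β * pq Q n := by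
    rcases Nat.even_or_odd' n with ⟨j, rfl | rfl⟩
    · have hj : J ≤ j := by omega
      clear hn hn0
      induction β with
      | zero => simp
      | succ β ih =>
        have h2 := hstep (j + β) (by omega)
        have e1 : 2 * (j + β) + 2 = 2 * j + 2 * (β + 1) := by ring
        have e2 : 2 * (j + β) = 2 * j + 2 * β := by ring
        rw [e1, e2] at h2
        calc pq Q (2 * j + 2 * (β + 1)) ≤ (gr Q ^ 2 + 1) * pq Q (2 * j + 2 * β) := h2
          _ ≤ (gr Q ^ 2 + 1) * ((gr Q ^ 2 + 1) ^ β * pq Q (2 * j)) :=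
            mul_le_mul_of_nonneg_left ih (by linarith)
          _ = _ := by rw [pow_succ]; ring
    · have h0 : pq Q (2 * j + 1 + 2 * β) = 0 := by
        unfold pq
        rw [a_odd Q _ (by omega)]
        simp
      rw [h0]
      have : 0 ≤ pq Q (2 * j + 1) := by unfold pq; positivity
      positivity
  unfold pq at key
  have hp1 : (0 : ℝ) < 2 * ((n + 2 * β : ℕ) : ℝ) := by
    have : 0 < n + 2 * β := by omega
    have h : (0 : ℝ) < ((n + 2 * β : ℕ) : ℝ) := by exact_mod_cast this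
    linarith
  have hp2 : (0 : ℝ) < 2 * (n : ℝ) := by linarith
  rw [← mul_div_assoc, div_le_div_iff₀ hp1 hp2] at key
  push_cast at key
  have e : (1 + 2 * (β : ℝ) / n) * ((gr Q ^ 2 + 1) ^ β * a Q n) =
      ((gr Q ^ 2 + 1) ^ β * a Q n * (n + 2 * β)) / n := by
    field_simp
  rw [e, le_div_iff₀ hn0]
  nlinarith

end Q123.NS
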