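import Pool.Agent.H246K3.Stubs
import Pool.Agent.H246K2.CONT
import Pool.Agent.H246KN.Basic

/-!
# Contacts of a polygon with empty balls
-/

set_option autoImplicit false

namespace Q123.NS

open Finset Filter Topology KN
open scoped Classical

noncomputable section

/-- the points of `P` on the boundary of an open ball which contains no point of `P`, has an integer
centre and a radius in the interval `(R, R + 1]` -/
def cset (R : ℕ) (P : Finset Z3) : Finset Z3 :=
  P.filter (fun x => ∃ N : Z3, Cont R {p | p ∈ P} x N)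

/-- the number of contacts of a polygon with empty balls -/
def ct (R : ℕ) (w : List Dir) : ℕ := (cset R (path w).toFinset).card

theorem mem_cset {R : ℕ} {P : Finset Z3} {x : Z3} :
    x ∈ cset R P ↔ x ∈ P ∧ ∃ N : Z3, Cont R {p | p ∈ P} x N := by
  unfold cset
  rw [mem_filter]

/-- a box -/
def bx (r : ℕ) (q : Z3) : Finset Z3 :=
  Icc (q.1 - r) (q.1 + r) ×ˢ Icc (q.2.1 - r) (q.2.1 + r) ×ˢ Icc (q.2.2 - r) (q.2.2 + r)

theorem mem_bx {r : ℕ} {p q : Z3} : p ∈ bx r q ↔ near r p q := by
  unfold bx near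
  rw [mem_product, mem_product, mem_Icc, mem_Icc, mem_Icc, abs_le, abs_le, abs_le]
  constructor
  · rintro ⟨⟨h1, h2⟩, ⟨h3, h4⟩, h5, h6⟩
    exact ⟨⟨by linarith, by linarith⟩, ⟨by linarith, by linarith⟩, by linarith, by linarith⟩
  · rintro ⟨⟨h1, h2⟩, ⟨h3, h4⟩, h5, h6⟩
    exact ⟨⟨by linarith, by linarith⟩, ⟨by linarith, by linarith⟩, by linarith, by linarith⟩

theorem card_bx (r : ℕ) (q : Z3) : (bx r q).card = (2 * r + 1) ^ 3 := by
  unfold bx
  have h : ∀ x : ℤ, (x + (r : ℤ) + 1 - (x - r)).toNat = 2 * r + 1 := by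
    intro x
    have : x + (r : ℤ) + 1 - (x - r) = ((2 * r + 1 : ℕ) : ℤ) := by push_cast; ring
    rw [this, Int.toNat_natCast]
  rw [card_product, card_product, Int.card_Icc, Int.card_Icc, Int.card_Icc, h, h, h]
  ring

/-- far points do not matter -/
theorem far_ok {R : ℕ} {x p N : Z3} (hN : dt N N ≤ ((R : ℤ) + 1) ^ 2)
    (h : ¬ near (2 * R + 2) p x) : 2 * dt N (p - x) ≤ dt (p - x) (p - x) := by
  have hcs := K2CONT.dt_cs N (p - x)
  have hd : (2 * (R : ℤ) + 2) ^ 2 ≤ dt (p - x) (p - x) := by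
    by_contra hcon
    rw [not_le] at hcon
    apply h
    unfold dt at hcon
    simp only [Prod.fst_sub, Prod.snd_sub] at hcon
    have hr : (0 : ℤ) ≤ R := by positivity
    refine ⟨?_, ?_, ?_⟩ <;> apply le_of_lt <;> push_cast <;> apply abs_lt_of_sq_lt_sq <;>
      nlinarith [sq_nonneg (p.1 - x.1), sq_nonneg (p.2.1 - x.2.1), sq_nonneg (p.2.2 - x.2.2)]

  set D := dt (p - x) (p - x) with hD
  have hD0 : 0 ≤ D := le_trans (by positivity) hd
  have h1 : (2 * dt N (p - x)) ^ 2 ≤ D ^ 2 := by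
    have h2 : dt N N * D ≤ ((R : ℤ) + 1) ^ 2 * D := mul_le_mul_of_nonneg_right hN hD0
    nlinarith
  exact le_of_abs_le (abs_le_of_sq_le_sq h1 hD0)

/-- two sets which agree outside a box have almost the same contacts -/
theorem cset_change {R ρ : ℕ} {P P' : Finset Z3} {y : Z3}
    (h : ∀ p, ¬ near ρ p y → (p ∈ P ↔ p ∈ P')) :
    (cset R P).card ≤ (cset R P').card + (2 * (ρ + 2 * R + 2) + 1) ^ 3 := by
  have hsub : cset R P ⊆ cset R P' ∪ bx (ρ + 2 * R + 2) y := by
    intro x hx
    rw [mem_union]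
    by_cases hn : near (ρ + 2 * R + 2) x y
    · exact Or.inr (mem_bx.2 hn)
    left
    rw [mem_cset] at hx ⊢
    obtain ⟨hxP, N, h1, h2, h3, h4⟩ := hx
    have hx' : ¬ near ρ x y := by
      intro hc
      apply hn
      obtain ⟨c1, c2, c3⟩ := hc
      refine ⟨c1.trans ?_, c2.trans ?_, c3.trans ?_⟩ <;> push_cast <;> linarith
    refine ⟨(h x hx').1 hxP, N, (h x hx').1 hxP, h2, h3, ?_⟩
    intro p hp
    by_cases hpn : near ρ p y
    · apply far_ok h3
      intro hc
      apply hn
      obtain ⟨c1, c2, c3⟩ := hc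
      obtain ⟨d1, d2, d3⟩ := hpn
      rw [abs_le] at c1 c2 c3 d1 d2 d3
      push_cast at c1 c2 c3
      refine ⟨?_, ?_, ?_⟩ <;> rw [abs_le] <;> push_cast <;> constructor <;> linarith
    · exact h4 p ((h p hpn).2 hp)
  refine (card_le_card hsub).trans ((card_union_le _ _).trans ?_)
  rw [card_bx]

/-- rotations are isometries -/
theorem dt_Rp (d f : Dir) (h : perp d f) (p q : Z3) : dt (Rp d f p) (Rp d f q) = dt p q := by
  obtain ⟨a, b, c⟩ := p
  obtain ⟨a', b', c'⟩ := q
  cases d <;> cases f <;>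
    first
    | exact absurd rfl h
    | (simp only [Rp, dt, cr, vec, neg, Prod.smul_mk, smul_eq_mul, Prod.mk_add_mk]
       ring)

theorem Rp_sub (d f : Dir) (p q : Z3) : Rp d f (p - q) = Rp d f p - Rp d f q := by
  unfold Rp
  simp only [Prod.fst_sub, Prod.snd_sub, sub_smul]
  abel

/-- a rotation does not decrease the number of contacts -/
theorem ct_rot (hrtc : T_rtc) (R : ℕ) {d f : Dir} (h : perp d f) (w : List Dir) :
    ct R w ≤ ct R (w.map (rt d f)) := by
  obtain ⟨⟨d', f', hp', -, -, -, -, hinv, -⟩, -, hpath, -⟩ := hrtc d f h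
  have hinj : Function.Injective (Rp d f) := Function.LeftInverse.injective hinv
  unfold ct
  apply card_le_card_of_injOn (Rp d f)
  · intro x hx
    rw [mem_coe, mem_cset] at hx ⊢
    obtain ⟨hx0, N, h1, h2, h3, h4⟩ := hx
    have hmem : ∀ p, p ∈ (path w).toFinset → Rp d f p ∈ (path (w.map (rt d f))).toFinset := by
      intro p hp
      rw [List.mem_toFinset] at hp ⊢
      rw [(hpath w).2]
      exact List.mem_map_of_mem hp
    refine ⟨hmem x hx0, Rp d f N, hmem x hx0, ?_, ?_, ?_⟩
    · rw [dt_Rp d f h]; exact h2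
    · rw [dt_Rp d f h]; exact h3
    · intro q hq
      have hq' : q ∈ path (w.map (rt d f)) := List.mem_toFinset.1 hq
      rw [(hpath w).2] at hq'
      obtain ⟨p, hp, rfl⟩ := List.mem_map.1 hq'
      rw [← Rp_sub, dt_Rp d f h, dt_Rp d f h]
      exact h4 p (List.mem_toFinset.2 hp)
  · exact hinj.injOn

/-- the end point of a walk is at distance at most its length -/
theorem pos_le (w : List Dir) : |(pos w).1| ≤ w.length ∧ |(pos w).2.1| ≤ w.length ∧
    |(pos w).2.2| ≤ w.length := by
  induction w with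
  | nil => simp [pos]
  | cons d l ih =>
    obtain ⟨h1, h2, h3⟩ := ih
    rw [abs_le] at h1 h2 h3
    cases d <;>
      (simp only [pos, vec, Prod.fst_add, Prod.snd_add, List.length_cons, abs_le]
       push_cast
       refine ⟨⟨?_, ?_⟩, ⟨?_, ?_⟩, ⟨?_, ?_⟩⟩ <;> omega)

/-- replacement of a part of a walk by a walk with the same end points -/
theorem path_change {l1 m m' l2 : List Dir} (hpos : pos m = pos m') {ρ : ℕ} (hm : m.length ≤ ρ)
    {p : Z3} (hp : p ∈ path (l1 ++ (m ++ l2))) (hn : ¬ near ρ p (pos l2)) :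
    p ∈ path (l1 ++ (m' ++ l2)) := by
  rw [path_append, List.mem_append] at hp ⊢
  have e : pos (m ++ l2) = pos (m' ++ l2) := by rw [pos_append, pos_append, hpos]
  rcases hp with hp | hp
  · left
    rwa [← e]
  · right
    rw [path_append, List.mem_append] at hp ⊢
    rcases hp with hp | hp
    · exfalso
      apply hn
      obtain ⟨q, hq, rfl⟩ := List.mem_map.1 hp
      have hq' : q ∈ path m := List.mem_of_mem_dropLast hq
      obtain ⟨i, hi, rfl⟩ := (mem_path_iff m q).1 hq'
      obtain ⟨h1, h2, h3⟩ := pos_le (m.drop i)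
      have hlen : ((m.drop i).length : ℤ) ≤ ρ := by
        rw [List.length_drop]
        have : m.length - i ≤ ρ := by omega
        exact_mod_cast this
      refine ⟨?_, ?_, ?_⟩
      · simp only [Prod.fst_add, add_sub_cancel_right]
        exact h1.trans hlen
      · simp only [Prod.fst_add, Prod.snd_add, add_sub_cancel_right]
        exact h2.trans hlen
      · simp only [Prod.snd_add, add_sub_cancel_right]
        exact h3.trans hlen
    · exact Or.inr hp

/-- the number of contacts after the replacement -/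
theorem ct_change (R : ℕ) {l1 m m' l2 : List Dir} (hpos : pos m = pos m') {ρ : ℕ}
    (hm : m.length ≤ ρ) (hm' : m'.length ≤ ρ) :
    ct R (l1 ++ (m ++ l2)) ≤ ct R (l1 ++ (m' ++ l2)) + (2 * (ρ + 2 * R + 2) + 1) ^ 3 := by
  unfold ct
  apply cset_change (y := pos l2)
  intro p hp
  rw [List.mem_toFinset, List.mem_toFinset]
  exact ⟨fun h => path_change hpos hm h hp, fun h => path_change hpos.symm hm' h hp⟩

/-- every projection has at most as many points as there are contacts, up to a constant -/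
theorem ct_proj (R : ℕ) (w : List Dir) :
    (((path w).toFinset.image (fun p => (p.2.1, p.2.2))).card ≤ (2 * R + 3) ^ 3 * ct R w ∧
      ((path w).toFinset.image (fun p => (p.1, p.2.2))).card ≤ (2 * R + 3) ^ 3 * ct R w ∧
      ((path w).toFinset.image (fun p => (p.1, p.2.1))).card ≤ (2 * R + 3) ^ 3 * ct R w) := by
  have key : ∀ (π : Z3 → ℤ × ℤ) (e : Z3), dt e e = 1 → (∀ p, π (p + e) = π p) →
      ((path w).toFinset.image π).card ≤ (2 * R + 3) ^ 3 * ct R w := by
    intro π e he hπ
    obtain ⟨C, hC1, hC2, hC3⟩ := K2CONT.lines R (path w).toFinset π e he hπ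
    refine hC3.trans (Nat.mul_le_mul_left _ ?_)
    apply card_le_card
    intro x hx
    exact mem_cset.2 ⟨hC1 hx, hC2 x hx⟩
  refine ⟨key _ (1, 0, 0) rfl ?_, key _ (0, 1, 0) rfl ?_, key _ (0, 0, 1) rfl ?_⟩
  · intro p; rw [Prod.mk.injEq]; exact ⟨add_zero _, add_zero _⟩
  · intro p; rw [Prod.mk.injEq]; exact ⟨add_zero _, add_zero _⟩
  · intro p; rw [Prod.mk.injEq]; exact ⟨add_zero _, add_zero _⟩

/-- there are many contacts -/
theorem ct_many (hcont : T_cont) (R : ℕ) (hR : 1 ≤ R) (w : List Dir) :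
    (((path w).toFinset.card : ℝ)) ^ (2 / 3 : ℝ) ≤ (2 * R + 3 : ℝ) ^ 3 * ct R w := by
  obtain ⟨C, hC1, hC2, hC3⟩ := hcont R hR (path w).toFinset ⟨0, List.mem_toFinset.2 (zero_mem_path w)⟩
  refine hC3.trans (mul_le_mul_of_nonneg_left ?_ (by positivity))
  have : C.card ≤ ct R w := by
    unfold ct
    apply card_le_card
    intro x hx
    exact mem_cset.2 ⟨hC1 hx, hC2 x hx⟩
  exact_mod_cast this

end

end Q123.NS
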