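import Pool.Agent.Q123.NS.Main

/-!
# Many summands in classes of knots closed under connected sums: consequences
-/

set_option autoImplicit false

namespace Q123.NS

open Finset Filter Topology KN KN.KQ
open scoped Classical

/-- a subclass whose members have boundedly many summands -/
theorem main4 {Q : List Dir → Prop} (hQ : KClass Q) (hc : CSum Q) (hne : ∃ w, SAP w ∧ Q w)
    {k : List V} (hk : Tp Q k) {R L : ℕ} {v : List Dir} (hB : Blk k R L v)
    {Q' : List Dir → Prop} {M : ℕ} (h : ∀ w, SAP w → Q' w → Q w ∧ ¬ HasSummands k M w) :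
    ∃ δ : ℝ, 0 < δ ∧ δ ≤ 1 ∧ ∀ᶠ n : ℕ in atTop,
      (∀ s : ℕ, (((K Q' n).filter (fun w => s ≤ ct R w)).card : ℝ) ≤
        Real.exp (-(δ * s)) * a Q n) ∧
      (a Q' n : ℝ) ≤ Real.exp (-(δ * (n : ℝ) ^ (2 / 3 : ℝ))) * a Q n := by
  obtain ⟨δ, hδ, hδ1, hmain⟩ := main3 hQ hc hne hk hB
  have hD : (0 : ℝ) < (2 * R + 3 : ℝ) ^ 3 := by positivity
  have hD1 : (1 : ℝ) ≤ (2 * R + 3 : ℝ) ^ 3 := by
    apply one_le_pow₀
    have : (0 : ℝ) ≤ R := Nat.cast_nonneg _
    linarith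
  set D : ℝ := (2 * R + 3 : ℝ) ^ 3 with hDdef
  have hηδ : δ / D ≤ δ := div_le_self hδ.le hD1
  refine ⟨δ / D, by positivity, hηδ.trans hδ1, ?_⟩
  filter_upwards [hmain, tt_large D hD (M / δ)] with n hn1 hn2
  set t := ⌈(n : ℝ) ^ (2 / 3 : ℝ) / D⌉₊ with ht
  have htl : (n : ℝ) ^ (2 / 3 : ℝ) / D ≤ t := Nat.le_ceil _
  have hMt : (M : ℝ) ≤ δ * t := by
    have := hn2.trans htl
    rw [div_le_iff₀ hδ] at this
    linarith
  have hall : ∀ w ∈ K Q' n, t ≤ ct R w := by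
    intro w hw
    obtain ⟨l1, l2, -⟩ := mem_K.1 hw
    apply Nat.ceil_le.2
    rw [div_le_iff₀ hD]
    have := ct_low (R := R) hB.hR l2
    rw [l1] at this
    linarith
  have hbig : ∀ s : ℕ, t ≤ s → (((K Q' n).filter (fun w => s ≤ ct R w)).card : ℝ) ≤
      Real.exp (-(δ * s)) * a Q n := by
    intro s hs
    refine le_trans ?_ (hn1.1 s)
    have : ((K Q' n).filter (fun w => s ≤ ct R w)).card ≤
        ((K Q n).filter (fun w => s ≤ ct R w ∧ ¬ HasSummands k ⌈δ * s⌉₊ w)).card := by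
      apply card_le_card
      intro w hw
      rw [mem_filter, mem_K] at hw ⊢
      obtain ⟨⟨k1, k2, k3⟩, k4⟩ := hw
      obtain ⟨k5, k6⟩ := h w k2 k3
      refine ⟨⟨k1, k2, k5⟩, k4, fun hcon => k6 (summands_anti ?_ hcon)⟩
      have h1 : (M : ℝ) ≤ (⌈δ * (s : ℝ)⌉₊ : ℝ) := by
        refine hMt.trans (le_trans ?_ (Nat.le_ceil _))
        apply mul_le_mul_of_nonneg_left _ hδ.le
        exact_mod_cast hs
      exact_mod_cast h1
    exact_mod_cast this
  have hall2 : ∀ s : ℕ, s ≤ t → (((K Q' n).filter (fun w => s ≤ ct R w)).card : ℝ) ≤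
      Real.exp (-(δ * t)) * a Q n := by
    intro s _
    refine le_trans ?_ (hbig t le_rfl)
    have : ((K Q' n).filter (fun w => s ≤ ct R w)).card ≤
        ((K Q' n).filter (fun w => t ≤ ct R w)).card := by
      apply card_le_card
      intro w hw
      rw [mem_filter] at hw ⊢
      exact ⟨hw.1, hall w hw.1⟩
    exact_mod_cast this
  have ha0 : (0 : ℝ) ≤ a Q n := Nat.cast_nonneg _
  constructor
  · intro s
    have hs0 : (0 : ℝ) ≤ s := Nat.cast_nonneg _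
    rcases le_total t s with hst | hst
    · refine (hbig s hst).trans ?_
      apply mul_le_mul_of_nonneg_right _ ha0
      apply Real.exp_le_exp.2
      nlinarith
    · refine (hall2 s hst).trans ?_
      apply mul_le_mul_of_nonneg_right _ ha0
      apply Real.exp_le_exp.2
      have : (s : ℝ) ≤ t := by exact_mod_cast hst
      nlinarith
  · have h0 : (a Q' n : ℝ) = (((K Q' n).filter (fun w => 0 ≤ ct R w)).card : ℝ) := by
      unfold a
      rw [Finset.filter_true_of_mem (fun _ _ => Nat.zero_le _)]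
    rw [h0]
    refine (hall2 0 (Nat.zero_le _)).trans ?_
    apply mul_le_mul_of_nonneg_right _ ha0
    apply Real.exp_le_exp.2
    have h1 := mul_le_mul_of_nonneg_left htl hδ.le
    have h2 : δ / D * (n : ℝ) ^ (2 / 3 : ℝ) = δ * ((n : ℝ) ^ (2 / 3 : ℝ) / D) := by ring
    rw [h2]
    linarith

/-- the polygons of one type have boundedly many summands -/
theorem type_bound {Q : List Dir → Prop} (hQ : KClass Q) {w₀ : List Dir} (hw₀ : SAP w₀)
    (hQw : Q w₀) {k : List V} (hk : FNAG k) : ∃ M : ℕ, ∀ w, SAP w → KT (vl w₀) w →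
      Q w ∧ ¬ HasSummands k M w := by
  obtain ⟨M₁, h1⟩ := noM_finite hw₀ (fun _ => k) 1 (fun _ _ => hk)
  obtain ⟨hb1, hb2⟩ := back_same hw₀
  obtain ⟨M₂, h2⟩ := noM_finite hb1 (fun _ => k) 1 (fun _ _ => hk)
  refine ⟨max M₁ M₂, fun w hw hT => ?_⟩
  rcases hT with hT | hT
  · refine ⟨hQ.same w₀ w hw₀ hw hT.symm hQw, fun hcon => ?_⟩
    have h3 := summands_anti (le_max_left M₁ M₂) hcon
    exact h1 (fun _ => 0) (fun _ _ => by norm_num) (vl w) hT h3
  · refine ⟨hQ.rev w₀ w hw₀ hw ?_ hQw, fun hcon => ?_⟩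
    · have := (c_rev _ _).2 hT
      rw [List.reverse_reverse] at this
      exact this.symm
    · have h3 := summands_anti (le_max_right M₁ M₂) hcon
      exact h2 (fun _ => 0) (fun _ _ => by norm_num) (vl w) (hT.trans hb2.symm) h3

/-- subexponential factors -/
theorem absorb2 (δ : ℝ) (hδ : 0 < δ) (β : ℝ) :
    Tendsto (fun x : ℝ => x ^ β * Real.exp (-(δ * x ^ (2 / 3 : ℝ)))) atTop (𝓝 0) := by
  have h1 : Tendsto (fun x : ℝ => x ^ (2 / 3 : ℝ)) atTop atTop :=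
    tendsto_rpow_atTop (by norm_num)
  have h2 := (tendsto_rpow_mul_exp_neg_mul_atTop_nhds_zero (3 / 2 * β) δ hδ).comp h1
  refine h2.congr' ?_
  filter_upwards [eventually_ge_atTop 0] with x hx
  simp only [Function.comp]
  rw [← Real.rpow_mul hx, neg_mul]
  congr 2
  ring

/-- the asymptotic form forces a smaller growth rate -/
theorem main6 {Q : List Dir → Prop} (hQ : KClass Q) (hc : CSum Q) (hne : ∃ w, SAP w ∧ Q w)
    {Q' : List Dir → Prop} {δ : ℝ} (hδ : 0 < δ) (h : ∀ᶠ n : ℕ in atTop,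
      (a Q' n : ℝ) ≤ Real.exp (-(δ * (n : ℝ) ^ (2 / 3 : ℝ))) * a Q n)
    {A α g : ℝ} (hA : 0 < A) (hg : 0 < g) (hF : Form Q' A α g) : g < gr Q := by
  by_contra hcon
  push Not at hcon
  obtain ⟨C, hC⟩ := (class_all hQ hc hne).1
  have hG : 77 / 20 ≤ gr Q := (gr_bounds Q hQ hne).1
  have hG0 : 0 < gr Q := by linarith
  have hC0 : 0 ≤ max C 0 := le_max_right _ _
  have h1 : Tendsto (fun j : ℕ => (2 * j : ℝ)) atTop atTop :=
    Tendsto.const_mul_atTop (by norm_num) tendsto_natCast_atTop_atTop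
  have h2 : Tendsto (fun j : ℕ => max C 0 * ((2 * j : ℝ) ^ (-(2 / 3) - (α - 3)) *
      Real.exp (-(δ * (2 * j : ℝ) ^ (2 / 3 : ℝ))))) atTop (𝓝 0) := by
    have := ((absorb2 δ hδ (-(2 / 3) - (α - 3))).comp h1).const_mul (max C 0)
    simpa using this
  have h3 : Tendsto (fun j : ℕ => 2 * j) atTop atTop :=
    tendsto_atTop_atTop.2 fun b => ⟨b, fun a ha => by omega⟩
  have h4 : ∀ᶠ j : ℕ in atTop, pq Q' (2 * j) / ((2 * j : ℝ) ^ (α - 3) * g ^ (2 * j)) ≤
      max C 0 * ((2 * j : ℝ) ^ (-(2 / 3) - (α - 3)) *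
      Real.exp (-(δ * (2 * j : ℝ) ^ (2 / 3 : ℝ)))) := by
    filter_upwards [h3.eventually h, eventually_ge_atTop 1] with j hj hj1
    have hx : (0 : ℝ) < 2 * j := by
      have : (1 : ℝ) ≤ j := by exact_mod_cast hj1
      linarith
    push_cast at hj
    have e1 : pq Q' (2 * j) ≤ Real.exp (-(δ * (2 * j : ℝ) ^ (2 / 3 : ℝ))) * pq Q (2 * j) := by
      unfold pq
      push_cast
      rw [← mul_div_assoc]
      apply div_le_div_of_nonneg_right hj (by positivity)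
    have e2 : pq Q (2 * j) ≤ max C 0 * (2 * j : ℝ) ^ (-(2 / 3) : ℝ) * g ^ (2 * j) := by
      have := hC (2 * j) (by omega)
      push_cast at this
      refine this.trans ?_
      apply mul_le_mul _ (pow_le_pow_left₀ hG0.le hcon _) (by positivity) (by positivity)
      exact mul_le_mul_of_nonneg_right (le_max_left _ _) (by positivity)
    rw [div_le_iff₀ (by positivity)]
    have e3 : (2 * j : ℝ) ^ (-(2 / 3) - (α - 3)) * (2 * j : ℝ) ^ (α - 3) =
        (2 * j : ℝ) ^ (-(2 / 3) : ℝ) := by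
      rw [← Real.rpow_add hx]
      congr 1
      ring
    calc pq Q' (2 * j) ≤ Real.exp (-(δ * (2 * j : ℝ) ^ (2 / 3 : ℝ))) * pq Q (2 * j) := e1
      _ ≤ Real.exp (-(δ * (2 * j : ℝ) ^ (2 / 3 : ℝ))) *
          (max C 0 * (2 * j : ℝ) ^ (-(2 / 3) : ℝ) * g ^ (2 * j)) :=
          mul_le_mul_of_nonneg_left e2 (Real.exp_pos _).le
      _ = _ := by
          rw [← e3]
          ring
  have h5 := le_of_tendsto_of_tendsto hF h2 h4
  linarith

/-- few polygons with many contacts -/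
theorem main7 {Q : List Dir → Prop} (hQ : KClass Q) (hc : CSum Q) (hne : ∃ w, SAP w ∧ Q w)
    {Q' : List Dir → Prop} {R : ℕ} {δ : ℝ} (hδ : 0 < δ) (h : ∀ᶠ n : ℕ in atTop,
      ∀ s : ℕ, (((K Q' n).filter (fun w => s ≤ ct R w)).card : ℝ) ≤
        Real.exp (-(δ * s)) * a Q n) {ε : ℝ} (hε : 0 < ε) :
    ∃ θ : ℝ, 0 < θ ∧ θ < 1 ∧ ∀ᶠ n : ℕ in atTop,
      (((K Q' n).filter (fun w => ε * n ≤ ct R w)).card : ℝ) ≤ (θ * gr Q) ^ n := by
  obtain ⟨C, hC⟩ := (class_all hQ hc hne).1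
  have hG : 77 / 20 ≤ gr Q := (gr_bounds Q hQ hne).1
  have hG0 : 0 < gr Q := by linarith
  set η := δ * ε / 2 with hη
  have hη0 : 0 < η := by positivity
  refine ⟨Real.exp (-η), Real.exp_pos _, by
    rw [← Real.exp_zero]
    exact Real.exp_lt_exp.2 (by linarith), ?_⟩
  have h2 : Tendsto (fun n : ℕ => max C 0 * (2 * ((n : ℝ) ^ (1 : ℝ) * Real.exp (-η * n)))) atTop
      (𝓝 0) := by
    have := (((tendsto_rpow_mul_exp_neg_mul_atTop_nhds_zero 1 η hη0).comp
      tendsto_natCast_atTop_atTop).const_mul 2).const_mul (max C 0)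
    simpa using this
  filter_upwards [h, h2.eventually (gt_mem_nhds (show (0 : ℝ) < 1 by norm_num)),
    eventually_ge_atTop 1] with n hn1 hn2 hn3
  have hn0 : (1 : ℝ) ≤ n := by exact_mod_cast hn3
  set s := ⌈ε * (n : ℝ)⌉₊ with hs
  have h3 : (((K Q' n).filter (fun w => ε * n ≤ ct R w)).card : ℝ) ≤
      Real.exp (-(δ * s)) * a Q n := by
    refine le_trans ?_ (hn1 s)
    have : ((K Q' n).filter (fun w => ε * n ≤ ct R w)).card ≤
        ((K Q' n).filter (fun w => s ≤ ct R w)).card := by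
      apply card_le_card
      intro w hw
      rw [mem_filter] at hw ⊢
      exact ⟨hw.1, Nat.ceil_le.2 hw.2⟩
    exact_mod_cast this
  have h4 : (a Q n : ℝ) ≤ 2 * n * (max C 0 * gr Q ^ n) := by
    have h5 := hC n hn3
    unfold pq at h5
    rw [div_le_iff₀ (by positivity)] at h5
    refine h5.trans ?_
    have h6 : (n : ℝ) ^ (-(2 / 3) : ℝ) ≤ 1 := Real.rpow_le_one_of_one_le_of_nonpos hn0 (by norm_num)
    have h7 : 0 ≤ (n : ℝ) ^ (-(2 / 3) : ℝ) := by positivity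
    have h8 : C * (n : ℝ) ^ (-(2 / 3) : ℝ) ≤ max C 0 := by
      rcases le_total C 0 with hC0 | hC0
      · exact (mul_nonpos_of_nonpos_of_nonneg hC0 h7).trans (le_max_right _ _)
      · calc C * (n : ℝ) ^ (-(2 / 3) : ℝ) ≤ C * 1 := mul_le_mul_of_nonneg_left h6 hC0
          _ ≤ max C 0 := by rw [mul_one]; exact le_max_left _ _
    calc C * (n : ℝ) ^ (-(2 / 3) : ℝ) * gr Q ^ n * (2 * n)
        ≤ max C 0 * gr Q ^ n * (2 * n) := by
          apply mul_le_mul_of_nonneg_right _ (by positivity)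
          exact mul_le_mul_of_nonneg_right h8 (by positivity)
      _ = _ := by ring
  refine h3.trans ?_
  have h5 : Real.exp (-(δ * s)) ≤ Real.exp (-(δ * (ε * n))) := by
    apply Real.exp_le_exp.2
    have := mul_le_mul_of_nonneg_left (Nat.le_ceil (ε * (n : ℝ))) hδ.le
    linarith
  calc Real.exp (-(δ * s)) * a Q n
      ≤ Real.exp (-(δ * (ε * n))) * (2 * n * (max C 0 * gr Q ^ n)) :=
        mul_le_mul h5 h4 (Nat.cast_nonneg _) (Real.exp_pos _).le
    _ = (max C 0 * (2 * ((n : ℝ) ^ (1 : ℝ) * Real.exp (-η * n)))) *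
        (Real.exp (-η) * gr Q) ^ n := by
        have e1 : Real.exp (-(δ * (ε * n))) = Real.exp (-η * n) * Real.exp (-η) ^ n := by
          rw [← Real.exp_nat_mul, ← Real.exp_add]
          congr 1
          rw [hη]
          ring
        rw [e1, Real.rpow_one, mul_pow]
        ring
    _ ≤ 1 * (Real.exp (-η) * gr Q) ^ n :=
        mul_le_mul_of_nonneg_right hn2.le (by positivity)
    _ = _ := one_mul _

/-- many connected sums over a knot, uniformly in their number -/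
theorem main8 {w₀ : List Dir} (hw₀ : SAP w₀) {k : List V} (hk : FNAG k) {R L : ℕ} {v : List Dir}
    (hB : Blk k R L v) : ∃ (δ : ℝ) (m : ℕ), 0 < δ ∧ ∀ᶠ n : ℕ in atTop, ∀ N : ℕ, 1 ≤ N →
      (N : ℝ) ≤ δ * (n : ℝ) ^ (2 / 3 : ℝ) →
      (δ * (n : ℝ) ^ (2 / 3 : ℝ) / N) ^ N * a (fun w => Ty (vl w₀) (vl w)) n ≤
        a (fun w => SumsC (Ty (vl w₀)) (fun _ => k) N (vl w)) (n + m * N) := by
  obtain ⟨M, hM⟩ := noM_finite hw₀ (fun _ => k) 1 (fun _ _ => hk)
  obtain ⟨C, hC1, hbasic⟩ := basic hB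
  have hD : (0 : ℝ) < (2 * R + 3 : ℝ) ^ 3 := by positivity
  set D : ℝ := (2 * R + 3 : ℝ) ^ 3 with hDdef
  have hC1' : (1 : ℝ) ≤ C := by exact_mod_cast hC1
  have hM0 : (0 : ℝ) ≤ M := Nat.cast_nonneg _
  set δ : ℝ := 1 / (2 * D * C * (1 + M)) with hδ
  have hδ0 : 0 < δ := by positivity
  refine ⟨δ, inc L v, hδ0, ?_⟩
  filter_upwards [eventually_ge_atTop ((M + 1) * C)] with n hn N hN hNn
  set t := ⌈(n : ℝ) ^ (2 / 3 : ℝ) / D⌉₊ with ht
  have htl : (n : ℝ) ^ (2 / 3 : ℝ) / D ≤ t := Nat.le_ceil _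
  have hN1 : (1 : ℝ) ≤ N := by exact_mod_cast hN
  have hN0 : (0 : ℝ) < N := by linarith
  have e0 : δ * (n : ℝ) ^ (2 / 3 : ℝ) * (2 * C * (1 + M)) = (n : ℝ) ^ (2 / 3 : ℝ) / D := by
    rw [hδ]
    field_simp
  have hNC : (N + 1) * C ≤ t := by
    have : ((N : ℝ) + 1) * C ≤ t := by
      refine le_trans ?_ htl
      rw [← e0]
      have h1 : (N : ℝ) * (2 * C * (1 + M)) ≤
          δ * (n : ℝ) ^ (2 / 3 : ℝ) * (2 * C * (1 + M)) :=
        mul_le_mul_of_nonneg_right hNn (by positivity)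
      refine le_trans ?_ h1
      have h2 : (N : ℝ) * (2 * C * 1) ≤ (N : ℝ) * (2 * C * (1 + M)) := by
        apply mul_le_mul_of_nonneg_left _ hN0.le
        apply mul_le_mul_of_nonneg_left _ (by positivity)
        linarith
      nlinarith
    exact_mod_cast this
  have hno : NoM (Ty (vl w₀)) (fun _ => k) N M := by
    intro σ _ l hl hS
    exact hM (fun _ => 0) (fun _ _ => by norm_num) l hl hS
  have hTC : TC (Ty (vl w₀)) := by
    intro l l' h1 h2
    exact h1.symm.trans h2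
  have h1 := hbasic (Ty (vl w₀)) hTC N M n t hno hNC hn
  have h2 : (K (fun w => Ty (vl w₀) (vl w)) n).filter (fun w => t ≤ ct R w) =
      K (fun w => Ty (vl w₀) (vl w)) n := by
    apply Finset.filter_true_of_mem
    intro w hw
    obtain ⟨l1, l2, -⟩ := mem_K.1 hw
    apply Nat.ceil_le.2
    rw [div_le_iff₀ hD]
    have := ct_low (R := R) hB.hR l2
    rw [l1] at this
    linarith
  rw [h2] at h1
  have h3 : (t : ℝ) ^ N * a (fun w => Ty (vl w₀) (vl w)) n ≤ (C * (N + M) : ℝ) ^ N *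
      a (fun w => SumsC (Ty (vl w₀)) (fun _ => k) N (vl w)) (n + N * inc L v) := by
    unfold a at h1 ⊢
    exact_mod_cast h1
  have h4 : (δ * (n : ℝ) ^ (2 / 3 : ℝ) / N) * (C * (N + M)) ≤ t := by
    refine le_trans ?_ htl
    rw [← e0]
    have h5 : (C : ℝ) * (N + M) ≤ N * (2 * C * (1 + M)) := by
      have h7 : 1 * (M : ℝ) ≤ N * M := mul_le_mul_of_nonneg_right hN1 hM0
      have h8 : (N : ℝ) + M ≤ N * (2 * (1 + M)) := by linarith
      have h9 := mul_le_mul_of_nonneg_left h8 (show (0 : ℝ) ≤ C by linarith)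
      linarith
    have h6 : 0 ≤ δ * (n : ℝ) ^ (2 / 3 : ℝ) / N := by positivity
    calc (δ * (n : ℝ) ^ (2 / 3 : ℝ) / N) * (C * (N + M))
        ≤ (δ * (n : ℝ) ^ (2 / 3 : ℝ) / N) * (N * (2 * C * (1 + M))) :=
          mul_le_mul_of_nonneg_left h5 h6
      _ = δ * (n : ℝ) ^ (2 / 3 : ℝ) * (2 * C * (1 + M)) := by
          field_simp
  have hCN : (0 : ℝ) < (C * (N + M) : ℝ) ^ N := by
    apply pow_pos
    have : (0 : ℝ) < C := by linarith
    apply mul_pos this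
    linarith
  have h5 : (C * (N + M) : ℝ) ^ N * ((δ * (n : ℝ) ^ (2 / 3 : ℝ) / N) ^ N *
      a (fun w => Ty (vl w₀) (vl w)) n) ≤ (C * (N + M) : ℝ) ^ N *
      a (fun w => SumsC (Ty (vl w₀)) (fun _ => k) N (vl w)) (n + N * inc L v) := by
    refine le_trans ?_ h3
    rw [← mul_assoc]
    apply mul_le_mul_of_nonneg_right _ (Nat.cast_nonneg _)
    rw [← mul_pow, mul_comm (C * (N + M) : ℝ)]
    exact pow_le_pow_left₀ (by positivity) h4 _
  have h6 := le_of_mul_le_mul_left h5 hCN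
  rw [mul_comm (inc L v) N]
  exact h6

/-- comparison with the growth rate -/
theorem rate {Q : List Dir → Prop} (hQ : KClass Q) (hc : CSum Q) (hne : ∃ w, SAP w ∧ Q w)
    (c : ℝ) (hc0 : 0 < c) : ∀ᶠ n : ℕ in atTop,
      (a Q n : ℝ) ≤ Real.exp (c * (n : ℝ) ^ (2 / 3 : ℝ)) * gr Q ^ n := by
  obtain ⟨C, hC⟩ := (class_all hQ hc hne).1
  have hG : 77 / 20 ≤ gr Q := (gr_bounds Q hQ hne).1
  have hG0 : 0 < gr Q := by linarith
  have h2 := ((absorb2 c hc0 1).comp (tendsto_natCast_atTop_atTop (R := ℝ))).const_mul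
    (2 * max C 0)
  rw [mul_zero] at h2
  filter_upwards [h2.eventually (gt_mem_nhds (show (0 : ℝ) < 1 by norm_num)),
    eventually_ge_atTop 1] with n hn2 hn3
  have hn0 : (1 : ℝ) ≤ n := by exact_mod_cast hn3
  simp only [Function.comp, Real.rpow_one] at hn2
  have h4 : (a Q n : ℝ) ≤ 2 * n * (max C 0 * gr Q ^ n) := by
    have h5 := hC n hn3
    unfold pq at h5
    rw [div_le_iff₀ (by positivity)] at h5
    refine h5.trans ?_
    have h6 : (n : ℝ) ^ (-(2 / 3) : ℝ) ≤ 1 := Real.rpow_le_one_of_one_le_of_nonpos hn0 (by norm_num)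
    have h7 : 0 ≤ (n : ℝ) ^ (-(2 / 3) : ℝ) := by positivity
    have h8 : C * (n : ℝ) ^ (-(2 / 3) : ℝ) ≤ max C 0 := by
      rcases le_total C 0 with hC0 | hC0
      · exact (mul_nonpos_of_nonpos_of_nonneg hC0 h7).trans (le_max_right _ _)
      · calc C * (n : ℝ) ^ (-(2 / 3) : ℝ) ≤ C * 1 := mul_le_mul_of_nonneg_left h6 hC0
          _ ≤ max C 0 := by rw [mul_one]; exact le_max_left _ _
    calc C * (n : ℝ) ^ (-(2 / 3) : ℝ) * gr Q ^ n * (2 * n)
        ≤ max C 0 * gr Q ^ n * (2 * n) := by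
          apply mul_le_mul_of_nonneg_right _ (by positivity)
          exact mul_le_mul_of_nonneg_right h8 (by positivity)
      _ = _ := by ring
  refine h4.trans ?_
  have h5 : 2 * max C 0 * n ≤ Real.exp (c * (n : ℝ) ^ (2 / 3 : ℝ)) := by
    have h6 : Real.exp (c * (n : ℝ) ^ (2 / 3 : ℝ)) * Real.exp (-(c * (n : ℝ) ^ (2 / 3 : ℝ))) = 1 := by
      rw [← Real.exp_add]
      simp
    have h7 := Real.exp_pos (c * (n : ℝ) ^ (2 / 3 : ℝ))
    have h8 := mul_le_mul_of_nonneg_left hn2.le h7.le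
    calc 2 * max C 0 * n = (2 * max C 0 * n) * (Real.exp (c * (n : ℝ) ^ (2 / 3 : ℝ)) *
          Real.exp (-(c * (n : ℝ) ^ (2 / 3 : ℝ)))) := by rw [h6, mul_one]
      _ = Real.exp (c * (n : ℝ) ^ (2 / 3 : ℝ)) * (2 * max C 0 * (n *
          Real.exp (-(c * (n : ℝ) ^ (2 / 3 : ℝ))))) := by ring
      _ ≤ Real.exp (c * (n : ℝ) ^ (2 / 3 : ℝ)) * 1 := h8
      _ = _ := mul_one _
  have h9 := mul_le_mul_of_nonneg_right h5 (show (0 : ℝ) ≤ gr Q ^ n by positivity)
  linarith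

/-- the number of polygons with boundedly many summands and the growth rate of the class -/
theorem main5 {Q : List Dir → Prop} (hQ : KClass Q) (hc : CSum Q) (hne : ∃ w, SAP w ∧ Q w)
    {k : List V} (hk : Tp Q k) {R L : ℕ} {v : List Dir} (hB : Blk k R L v)
    {Q' : List Dir → Prop} {M : ℕ} (h : ∀ w, SAP w → Q' w → Q w ∧ ¬ HasSummands k M w) :
    ∃ δ : ℝ, 0 < δ ∧ (∀ᶠ n : ℕ in atTop,
      (∀ s : ℕ, (((K Q' n).filter (fun w => s ≤ ct R w)).card : ℝ) ≤
        Real.exp (-(δ * s)) * a Q n) ∧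
      (a Q' n : ℝ) ≤ Real.exp (-(δ * (n : ℝ) ^ (2 / 3 : ℝ))) * a Q n ∧
      (a Q' n : ℝ) ≤ Real.exp (-(δ * (n : ℝ) ^ (2 / 3 : ℝ))) * gr Q ^ n) := by
  obtain ⟨δ, h1, -, h2⟩ := main4 hQ hc hne hk hB h
  refine ⟨δ / 2, by linarith, ?_⟩
  filter_upwards [h2, rate hQ hc hne (δ / 2) (by linarith)] with n hn1 hn2
  have ha0 : (0 : ℝ) ≤ a Q n := Nat.cast_nonneg _
  have hx : (0 : ℝ) ≤ (n : ℝ) ^ (2 / 3 : ℝ) := by positivity
  refine ⟨fun s => (hn1.1 s).trans ?_, hn1.2.trans ?_, hn1.2.trans ?_⟩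
  · apply mul_le_mul_of_nonneg_right _ ha0
    apply Real.exp_le_exp.2
    have : (0 : ℝ) ≤ s := Nat.cast_nonneg _
    nlinarith
  · apply mul_le_mul_of_nonneg_right _ ha0
    apply Real.exp_le_exp.2
    nlinarith
  · calc Real.exp (-(δ * (n : ℝ) ^ (2 / 3 : ℝ))) * a Q n
        ≤ Real.exp (-(δ * (n : ℝ) ^ (2 / 3 : ℝ))) *
          (Real.exp (δ / 2 * (n : ℝ) ^ (2 / 3 : ℝ)) * gr Q ^ n) :=
          mul_le_mul_of_nonneg_left hn2 (Real.exp_pos _).le
      _ = _ := by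
          rw [← mul_assoc, ← Real.exp_add]
          congr 2
          ring

end Q123.NS
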