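import Pool.Agent.Q123.NS.Core

/-!
# Many summands in classes of knots closed under connected sums: the main theorem
-/

set_option autoImplicit false

namespace Q123.NS

open Finset Filter Topology KN KN.KQ
open scoped Classical

theorem ct_le {R : ℕ} {w : List Dir} (hw : SAP w) : ct R w ≤ w.length := by
  unfold ct cset
  exact (card_filter_le _ _).trans (K2MANY.card_path w hw).le

/-- many contacts -/
theorem main1 {Q : List Dir → Prop} (hQ : KClass Q) (hc : CSum Q) (hne : ∃ w, SAP w ∧ Q w)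
    {k : List V} (hk : Tp Q k) {R L : ℕ} {v : List Dir} (hB : Blk k R L v) :
    ∃ (δ : ℝ) (s₀ n₀ : ℕ), 0 < δ ∧ δ ≤ 1 ∧ ∀ n s : ℕ, n₀ ≤ n → s₀ ≤ s →
      (((K Q n).filter (fun w => s ≤ ct R w ∧ ¬ HasSummands k ⌈δ * s⌉₊ w)).card : ℝ) ≤
        Real.exp (-(δ * s)) * a Q n := by
  obtain ⟨C, hC1, hbasic⟩ := basic hB
  obtain ⟨G, n₁, hG, hn₁, hshift⟩ := shift hQ hc hne
  obtain ⟨β, hβ⟩ : ∃ β, inc L v = 2 * β := ⟨inc L v / 2, by have := inc_even hB; omega⟩
  have hC1' : (1 : ℝ) ≤ C := by exact_mod_cast hC1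
  have hGβ : 1 ≤ G ^ β := one_le_pow₀ hG
  set δ : ℝ := Real.exp (-2) / (4 * C * G ^ β) with hδ
  have hδ0 : 0 < δ := by positivity
  have hδ4 : δ * (4 * C * G ^ β) = Real.exp (-2) := by
    rw [hδ]; field_simp
  have he2 : Real.exp (-2) ≤ 1 := Real.exp_le_one_iff.2 (by norm_num)
  have hδC : δ * (4 * C) ≤ 1 := by
    have : δ * (4 * C) ≤ δ * (4 * C * G ^ β) := by
      apply mul_le_mul_of_nonneg_left _ hδ0.le
      nlinarith
    linarith
  have hδ1 : δ ≤ 1 := by nlinarith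
  refine ⟨δ, ⌈(2 + 2 * β + 4 * C : ℝ) / δ⌉₊, n₁, hδ0, hδ1, ?_⟩
  intro n s hn hs
  have hs1 : (2 + 2 * β + 4 * C : ℝ) ≤ δ * s := by
    have := Nat.ceil_le.1 hs
    rw [div_le_iff₀ hδ0] at this
    linarith
  have hs4 : (4 * C : ℝ) ≤ s := by
    have h1 : δ * (s : ℝ) ≤ s := by
      have : (0 : ℝ) ≤ s := Nat.cast_nonneg _
      nlinarith
    have : (0 : ℝ) ≤ β := Nat.cast_nonneg _
    linarith
  have hs0 : (0 : ℝ) < s := by linarith
  set N := ⌈δ * (s : ℝ)⌉₊ with hN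
  have hN1 : δ * s ≤ N := Nat.le_ceil _
  have hN2 : (N : ℝ) < δ * s + 1 := Nat.ceil_lt_add_one (by positivity)
  have hβ0 : (0 : ℝ) ≤ β := Nat.cast_nonneg _
  have hN3 : (N : ℝ) ≤ 2 * δ * s := by linarith
  have hNC : (N + 1) * C ≤ s := by
    have : ((N : ℝ) + 1) * C ≤ s := by
      have h1 : δ * (4 * C) * s ≤ 1 * s := mul_le_mul_of_nonneg_right hδC hs0.le
      nlinarith
    exact_mod_cast this
  set F := (K Q n).filter (fun w => s ≤ ct R w ∧ ¬ HasSummands k N w) with hF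
  rcases F.eq_empty_or_nonempty with he | ⟨w, hw⟩
  · rw [he]
    simp only [Finset.card_empty, Nat.cast_zero]
    positivity
  have hsn : s ≤ n := by
    rw [hF, mem_filter, mem_K] at hw
    obtain ⟨⟨h1, h2, -⟩, h3, -⟩ := hw
    have := ct_le (R := R) h2
    omega
  have h1 := hbasic (Few (Tp Q) k N) (Few_TC (Tp_TC Q) k N) N N n s (Few_no _ _ _ _) hNC
    (hNC.trans hsn)
  have h2 : F.card ≤ ((K (fun w => Few (Tp Q) k N (vl w)) n).filter
      (fun w => s ≤ ct R w)).card := by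
    apply card_le_card
    intro w hw
    rw [hF, mem_filter, mem_K] at hw
    obtain ⟨⟨k1, k2, k3⟩, k4, k5⟩ := hw
    rw [mem_filter, mem_K]
    exact ⟨⟨k1, k2, (Tp_iff hQ k2).2 k3, k5⟩, k4⟩
  have h3 : a (fun w => SumsC (Few (Tp Q) k N) (fun _ => k) N (vl w)) (n + N * inc L v) ≤
      a Q (n + 2 * (β * N)) := by
    have e : N * inc L v = 2 * (β * N) := by rw [hβ]; ring
    rw [e]
    unfold a
    apply card_le_card
    intro w hw
    rw [mem_K] at hw ⊢
    obtain ⟨k1, k2, k3⟩ := hw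
    refine ⟨k1, k2, (Tp_iff hQ k2).1 (Tp_sums hQ hc hk N _ ?_)⟩
    exact sums_mono (fun l hl => hl.1) N _ k3
  have h4 : (s : ℝ) ^ N * F.card ≤ (C * (N + N) : ℝ) ^ N * a Q (n + 2 * (β * N)) := by
    have h5 : s ^ N * F.card ≤ (C * (N + N)) ^ N * a Q (n + 2 * (β * N)) :=
      (Nat.mul_le_mul_left _ h2).trans (h1.trans (Nat.mul_le_mul_left _ h3))
    exact_mod_cast h5
  have h5 := hshift n (β * N) hn
  have hn0 : (0 : ℝ) < n := by
    have : 0 < n := by omega
    exact_mod_cast this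
  have hNn : (N : ℝ) ≤ n := by
    have h6 : N ≤ n := by
      have : N * 1 ≤ (N + 1) * C := Nat.mul_le_mul (Nat.le_succ N) hC1
      omega
    exact_mod_cast h6
  have h6 : 1 + 2 * ((β * N : ℕ) : ℝ) / n ≤ 1 + 2 * β := by
    push_cast
    have : 2 * ((β : ℝ) * N) / n ≤ 2 * β := by
      rw [div_le_iff₀ hn0]
      nlinarith
    linarith
  have ha0 : (0 : ℝ) ≤ a Q n := Nat.cast_nonneg _
  have h7 : (a Q (n + 2 * (β * N)) : ℝ) ≤ (1 + 2 * β) * ((G ^ β) ^ N * a Q n) := by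
    rw [← pow_mul]
    refine h5.trans (mul_le_mul_of_nonneg_right h6 (by positivity))
  have h8 : (C * (N + N) : ℝ) ^ N * (G ^ β) ^ N ≤ (s : ℝ) ^ N * Real.exp (-(2 * N)) := by
    have e1 : Real.exp (-(2 * (N : ℝ))) = (Real.exp (-2)) ^ N := by
      rw [← Real.exp_nat_mul]
      congr 1
      ring
    rw [e1, ← mul_pow, ← mul_pow]
    apply pow_le_pow_left₀ (by positivity)
    calc (C * (N + N) : ℝ) * G ^ β = (2 * C * G ^ β) * N := by ring
      _ ≤ (2 * C * G ^ β) * (2 * δ * s) := mul_le_mul_of_nonneg_left hN3 (by positivity)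
      _ = s * (δ * (4 * C * G ^ β)) := by ring
      _ = s * Real.exp (-2) := by rw [hδ4]
  have hsN : (0 : ℝ) < (s : ℝ) ^ N := by positivity
  have h9 : (F.card : ℝ) ≤ Real.exp (-(2 * N)) * ((1 + 2 * β) * a Q n) := by
    have h10 : (s : ℝ) ^ N * F.card ≤
        (s : ℝ) ^ N * (Real.exp (-(2 * N)) * ((1 + 2 * β) * a Q n)) := by
      calc (s : ℝ) ^ N * F.card ≤ (C * (N + N) : ℝ) ^ N * a Q (n + 2 * (β * N)) := h4
        _ ≤ (C * (N + N) : ℝ) ^ N * ((1 + 2 * β) * ((G ^ β) ^ N * a Q n)) :=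
          mul_le_mul_of_nonneg_left h7 (by positivity)
        _ = ((C * (N + N) : ℝ) ^ N * (G ^ β) ^ N) * ((1 + 2 * β) * a Q n) := by ring
        _ ≤ ((s : ℝ) ^ N * Real.exp (-(2 * N))) * ((1 + 2 * β) * a Q n) :=
          mul_le_mul_of_nonneg_right h8 (by positivity)
        _ = _ := by ring
    exact le_of_mul_le_mul_left h10 hsN
  refine h9.trans ?_
  rw [← mul_assoc]
  apply mul_le_mul_of_nonneg_right _ ha0
  have h10 : (1 + 2 * β : ℝ) ≤ Real.exp (δ * s) := by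
    have := Real.add_one_le_exp (δ * (s : ℝ))
    linarith
  calc Real.exp (-(2 * N)) * (1 + 2 * β) ≤ Real.exp (-(2 * (δ * s))) * Real.exp (δ * s) := by
        apply mul_le_mul _ h10 (by positivity) (by positivity)
        apply Real.exp_le_exp.2
        linarith
    _ = Real.exp (-(δ * s)) := by
        rw [← Real.exp_add]
        congr 1
        ring

/-- the least possible number of contacts -/
theorem ct_low {R : ℕ} (hR : 1 ≤ R) {w : List Dir} (hw : SAP w) :
    (w.length : ℝ) ^ (2 / 3 : ℝ) ≤ (2 * R + 3 : ℝ) ^ 3 * ct R w := by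
  have := ct_many d_cont R hR w
  rwa [K2MANY.card_path w hw] at this

theorem tt_large (D : ℝ) (hD : 0 < D) (x : ℝ) :
    ∀ᶠ n : ℕ in atTop, x ≤ (n : ℝ) ^ (2 / 3 : ℝ) / D := by
  have ht : Tendsto (fun n : ℕ => (n : ℝ) ^ (2 / 3 : ℝ) / D) atTop atTop := by
    apply Tendsto.atTop_div_const hD
    exact (tendsto_rpow_atTop (by norm_num)).comp tendsto_natCast_atTop_atTop
  exact ht.eventually_ge_atTop x

/-- all thresholds -/
theorem main2 {Q : List Dir → Prop} (hQ : KClass Q) (hc : CSum Q) (hne : ∃ w, SAP w ∧ Q w)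
    {k : List V} (hk : Tp Q k) {R L : ℕ} {v : List Dir} (hB : Blk k R L v) :
    ∃ (δ : ℝ) (n₀ : ℕ), 0 < δ ∧ δ ≤ 1 ∧ ∀ n s : ℕ, n₀ ≤ n →
      (((K Q n).filter (fun w => s ≤ ct R w ∧ ¬ HasSummands k ⌈δ * s⌉₊ w)).card : ℝ) ≤
        Real.exp (-(δ * s)) * a Q n := by
  obtain ⟨δ, s₀, n₀, hδ, hδ1, h⟩ := main1 hQ hc hne hk hB
  have hD : (0 : ℝ) < (2 * R + 3 : ℝ) ^ 3 := by positivity
  obtain ⟨n₁, hn₁⟩ := eventually_atTop.1 (tt_large _ hD s₀)
  refine ⟨δ, max n₀ n₁, hδ, hδ1, fun n s hn => ?_⟩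
  have h1 := hn₁ n ((le_max_right _ _).trans hn)
  set t := ⌈(n : ℝ) ^ (2 / 3 : ℝ) / (2 * R + 3 : ℝ) ^ 3⌉₊ with ht
  have hts : s₀ ≤ t := by
    have : (s₀ : ℝ) ≤ t := h1.trans (Nat.le_ceil _)
    exact_mod_cast this
  rcases le_total t s with hst | hst
  · exact h n s ((le_max_left _ _).trans hn) (hts.trans hst)
  · have h2 := h n t ((le_max_left _ _).trans hn) hts
    have hst' : (s : ℝ) ≤ t := by exact_mod_cast hst
    have h3 : ((K Q n).filter (fun w => s ≤ ct R w ∧ ¬ HasSummands k ⌈δ * s⌉₊ w)).card ≤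
        ((K Q n).filter (fun w => t ≤ ct R w ∧ ¬ HasSummands k ⌈δ * t⌉₊ w)).card := by
      apply card_le_card
      intro w hw
      rw [mem_filter] at hw ⊢
      obtain ⟨k1, k2, k3⟩ := hw
      obtain ⟨l1, l2, -⟩ := mem_K.1 k1
      refine ⟨k1, ?_, fun hcon => k3 (summands_anti ?_ hcon)⟩
      · apply Nat.ceil_le.2
        rw [div_le_iff₀ hD]
        have := ct_low (R := R) hB.hR l2
        rw [l1] at this
        linarith
      · apply Nat.ceil_le_ceil
        exact mul_le_mul_of_nonneg_left hst' hδ.le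
    have h4 : (((K Q n).filter (fun w => s ≤ ct R w ∧ ¬ HasSummands k ⌈δ * s⌉₊ w)).card : ℝ) ≤
        (((K Q n).filter (fun w => t ≤ ct R w ∧ ¬ HasSummands k ⌈δ * t⌉₊ w)).card : ℝ) := by
      exact_mod_cast h3
    refine h4.trans (h2.trans ?_)
    apply mul_le_mul_of_nonneg_right _ (Nat.cast_nonneg _)
    apply Real.exp_le_exp.2
    nlinarith

/-- a subexponential factor -/
theorem absorb (c : ℝ) (hc : 0 < c) : ∀ᶠ n : ℕ in atTop,
    ((n : ℝ) + 1) ≤ Real.exp (c * (n : ℝ) ^ (2 / 3 : ℝ)) := by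
  have h1 : Tendsto (fun n : ℕ => (n : ℝ) ^ (2 / 3 : ℝ)) atTop atTop :=
    (tendsto_rpow_atTop (by norm_num)).comp tendsto_natCast_atTop_atTop
  have h2 : Tendsto (fun x : ℝ => Real.exp (c * x) / x ^ (3 / 2 : ℝ)) atTop atTop :=
    tendsto_exp_mul_div_rpow_atTop (3 / 2) c hc
  have h3 := (h2.comp h1).eventually_ge_atTop 2
  filter_upwards [h3, eventually_ge_atTop 1] with n hn hn1
  have hn1' : (1 : ℝ) ≤ n := by exact_mod_cast hn1
  simp only [Function.comp] at hn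
  have e : ((n : ℝ) ^ (2 / 3 : ℝ)) ^ (3 / 2 : ℝ) = n := by
    rw [← Real.rpow_mul (by positivity)]
    norm_num
  rw [e, le_div_iff₀ (by linarith)] at hn
  linarith

/-- the number of summands and the number of contacts -/
theorem main3 {Q : List Dir → Prop} (hQ : KClass Q) (hc : CSum Q) (hne : ∃ w, SAP w ∧ Q w)
    {k : List V} (hk : Tp Q k) {R L : ℕ} {v : List Dir} (hB : Blk k R L v) :
    ∃ δ : ℝ, 0 < δ ∧ δ ≤ 1 ∧ ∀ᶠ n : ℕ in atTop,
      (∀ s : ℕ, (((K Q n).filter (fun w => s ≤ ct R w ∧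
        ¬ HasSummands k ⌈δ * s⌉₊ w)).card : ℝ) ≤ Real.exp (-(δ * s)) * a Q n) ∧
      (((K Q n).filter (fun w => ¬ HasSummands k ⌈δ * ct R w⌉₊ w)).card : ℝ) ≤
        Real.exp (-(δ * (n : ℝ) ^ (2 / 3 : ℝ))) * a Q n := by
  obtain ⟨δ, n₀, hδ, hδ1, h⟩ := main2 hQ hc hne hk hB
  have hD : (0 : ℝ) < (2 * R + 3 : ℝ) ^ 3 := by positivity
  have hD1 : (1 : ℝ) ≤ (2 * R + 3 : ℝ) ^ 3 := by
    apply one_le_pow₀
    have : (0 : ℝ) ≤ R := Nat.cast_nonneg _
    linarith
  set D : ℝ := (2 * R + 3 : ℝ) ^ 3 with hDdef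
  set η : ℝ := δ / (2 * D) with hη
  have hη0 : 0 < η := by positivity
  have hηD : η * (2 * D) = δ := by rw [hη]; field_simp
  have hηδ : η ≤ δ := by nlinarith
  refine ⟨η, hη0, hηδ.trans hδ1, ?_⟩
  filter_upwards [absorb η hη0, eventually_ge_atTop n₀] with n hn hn0
  have hfirst : ∀ s : ℕ, (((K Q n).filter (fun w => s ≤ ct R w ∧
        ¬ HasSummands k ⌈η * s⌉₊ w)).card : ℝ) ≤ Real.exp (-(δ * s)) * a Q n := by
    intro s
    refine le_trans ?_ (h n s hn0)
    have : ((K Q n).filter (fun w => s ≤ ct R w ∧ ¬ HasSummands k ⌈η * s⌉₊ w)).card ≤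
        ((K Q n).filter (fun w => s ≤ ct R w ∧ ¬ HasSummands k ⌈δ * s⌉₊ w)).card := by
      apply card_le_card
      intro w hw
      rw [mem_filter] at hw ⊢
      refine ⟨hw.1, hw.2.1, fun hcon => hw.2.2 (summands_anti ?_ hcon)⟩
      apply Nat.ceil_le_ceil
      exact mul_le_mul_of_nonneg_right hηδ (Nat.cast_nonneg _)
    exact_mod_cast this
  refine ⟨fun s => (hfirst s).trans ?_, ?_⟩
  · apply mul_le_mul_of_nonneg_right _ (Nat.cast_nonneg _)
    apply Real.exp_le_exp.2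
    have : (0 : ℝ) ≤ s := Nat.cast_nonneg _
    nlinarith
  · -- sum over the number of contacts
    set F := (K Q n).filter (fun w => ¬ HasSummands k ⌈η * ct R w⌉₊ w) with hF
    have hmaps : ∀ w ∈ F, ct R w ∈ range (n + 1) := by
      intro w hw
      rw [hF, mem_filter, mem_K] at hw
      have := ct_le (R := R) hw.1.2.1
      rw [mem_range]
      omega
    have hcard := Finset.card_eq_sum_card_fiberwise (f := ct R) (s := F) (t := range (n + 1))
      (fun w hw => hmaps w hw)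
    rw [hcard]
    push_cast
    have hterm : ∀ s ∈ range (n + 1), (((F.filter (fun w => ct R w = s)).card : ℕ) : ℝ) ≤
        Real.exp (-(δ * ((n : ℝ) ^ (2 / 3 : ℝ) / D))) * a Q n := by
      intro s _
      rcases (F.filter (fun w => ct R w = s)).eq_empty_or_nonempty with he | ⟨w, hw⟩
      · rw [he]
        simp only [Finset.card_empty, Nat.cast_zero]
        positivity
      · have hs : (n : ℝ) ^ (2 / 3 : ℝ) / D ≤ s := by
          rw [mem_filter, hF, mem_filter, mem_K] at hw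
          obtain ⟨⟨⟨k1, k2, -⟩, -⟩, k3⟩ := hw
          have := ct_low (R := R) hB.hR k2
          rw [k1, k3] at this
          rw [div_le_iff₀ hD]
          linarith
        have h5 : (F.filter (fun w => ct R w = s)).card ≤
            ((K Q n).filter (fun w => s ≤ ct R w ∧ ¬ HasSummands k ⌈η * s⌉₊ w)).card := by
          apply card_le_card
          intro w hw
          rw [mem_filter, hF, mem_filter] at hw
          obtain ⟨⟨k1, k2⟩, k3⟩ := hw
          rw [mem_filter]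
          rw [k3] at k2
          exact ⟨k1, k3.ge, k2⟩
        have h6 : (((F.filter (fun w => ct R w = s)).card : ℕ) : ℝ) ≤
            (((K Q n).filter (fun w => s ≤ ct R w ∧ ¬ HasSummands k ⌈η * s⌉₊ w)).card : ℝ) := by
          exact_mod_cast h5
        refine h6.trans ((hfirst s).trans ?_)
        apply mul_le_mul_of_nonneg_right _ (Nat.cast_nonneg _)
        apply Real.exp_le_exp.2
        have := mul_le_mul_of_nonneg_left hs hδ.le
        linarith
    refine (Finset.sum_le_sum hterm).trans ?_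
    rw [Finset.sum_const, Finset.card_range, nsmul_eq_mul, ← mul_assoc]
    apply mul_le_mul_of_nonneg_right _ (Nat.cast_nonneg _)
    push_cast
    calc ((n : ℝ) + 1) * Real.exp (-(δ * ((n : ℝ) ^ (2 / 3 : ℝ) / D)))
        ≤ Real.exp (η * (n : ℝ) ^ (2 / 3 : ℝ)) *
          Real.exp (-(δ * ((n : ℝ) ^ (2 / 3 : ℝ) / D))) :=
          mul_le_mul_of_nonneg_right hn (Real.exp_pos _).le
      _ = Real.exp (-(η * (n : ℝ) ^ (2 / 3 : ℝ))) := by
          rw [← Real.exp_add]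
          congr 1
          have : δ * ((n : ℝ) ^ (2 / 3 : ℝ) / D) = 2 * η * (n : ℝ) ^ (2 / 3 : ℝ) := by
            rw [hη]
            field_simp
          rw [this]
          ring

end Q123.NS
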