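import Pool.Agent.TH945.KQ.YALL
import Pool.Agent.Q123.NS.Cnt

/-!
# Multiplicity of the insertions, uniform in the number of blocks
-/

set_option autoImplicit false

namespace Q123.NS

open Finset Filter Topology KN KN.KQ KN.K3YMUL
open scoped Classical

variable {𝒬 : List V → Prop}

/-- every type occurs in at most one block -/
theorem Sp_unique (T : ℕ) (v : ℕ → List Dir) {W : List Sz} (hW : (lab W).Nodup) {o m m' i : ℕ}
    {d f d' f' : Dir} (h : (m, i, d, f) ∈ Sp T v o W) (h' : (m', i, d', f') ∈ Sp T v o W) :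
    (m, d, f) = (m', d', f') := by
  obtain ⟨A, B, h1, h2⟩ := Sp_mem T v W o m i d f h
  obtain ⟨A', B', h1', h2'⟩ := Sp_mem T v W o m' i d' f' h'
  have hn : ∀ (A B : List Sz) (d f : Dir), W = A ++ .bl i d f :: B → i ∉ lab A := by
    intro A B d f h hi
    rw [h, KN.KQ.K3YCNT.lab_append, KN.KQ.K3YCNT.lab_cons_bl, List.nodup_append] at hW
    exact hW.2.2 i hi i List.mem_cons_self rfl
  have e : A ++ .bl i d f :: B = A' ++ .bl i d' f' :: B' := h1.symm.trans h1'
  obtain ⟨rfl, rfl⟩ := KN.KQ.K3YCNT.split_unique i A A' B B' _ _ _ _ (hn A B d f h1) (hn A' B' d' f' h1') e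
  have e2 := List.append_cancel_left e
  simp only [List.cons.injEq, Sz.bl.injEq, true_and, and_true] at e2
  rw [h2, h2', e2.1, e2.2]

/-- multiplicity -/
theorem mult {ks : ℕ → List V} {N M : ℕ} (hno : NoM 𝒬 ks N M) {T L B : ℕ}
    {v : ℕ → List Dir} (hv : SmB L B v) (hs : ∀ i, Same (vl (.zm :: v i)) (ks i)) (n : ℕ)
    (hn : M * (B + 2 * T) + 3 ≤ n) (w : List Dir) :
    ((VZ 𝒬 T L v N n).filter (fun W => EZ T v W = w)).card ≤
      ((N + M) * (2 * (B + 2 * T)) * 36) ^ N := by
  have hmem : Y_mem 𝒬 := q_mem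
  have hty : Y_type OV.TT0 := q_type OV.TT0_TC
  set D := B + 2 * T with hD
  have hD1 : 1 ≤ D := (blk_pos T (v 0)).trans (blk_le hv T 0)
  set F := (VZ 𝒬 T L v N n).filter (fun W => EZ T v W = w) with hF
  rcases F.eq_empty_or_nonempty with he | ⟨W0, hW0⟩
  · rw [he]; simp
  rw [hF, Finset.mem_filter, hmem] at hW0
  obtain ⟨⟨hl0, hn0, hV0⟩, hw0⟩ := hW0
  have hl1 : M * (B + 2 * T) + 3 ≤ W0.length := by rw [hl0]; exact hn
  -- the far positions
  set P0 : Finset ℕ := (Sp T v 0 W0).image Prod.fst with hP0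
  set S : Finset ℕ := (Finset.range (w.length + 1)).filter (fun m =>
    (∀ p ∈ P0, m + D ≤ p ∨ p + D ≤ m) ∧ ∃ W ∈ F, ∃ (i : ℕ) (d f : Dir),
      (m, i, d, f) ∈ Sp T v 0 W) with hS
  set sep : Finset ℕ → Prop := fun P => ∀ p ∈ P, ∀ q ∈ P, p ≠ q → p + D ≤ q ∨ q + D ≤ p
    with hsep
  obtain ⟨P, hP, hmax⟩ := Finset.exists_max_image (S.powerset.filter sep) Finset.card
    ⟨∅, by rw [Finset.mem_filter]; exact ⟨Finset.empty_mem_powerset _, by simp [hsep]⟩⟩
  rw [Finset.mem_filter, Finset.mem_powerset] at hP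
  obtain ⟨hPS, hPsep⟩ := hP
  have hPM : P.card ≤ M := by
    by_contra hcon
    rw [not_le] at hcon
    obtain ⟨P', hP'sub, hP'card⟩ := Finset.exists_subset_card_eq hcon.le
    set g : ℕ → ℕ := fun j => if h : j < M then (P'.orderEmbOfFin hP'card ⟨j, h⟩) else 0 with hg
    have hgm : ∀ j < M, g j ∈ P' := by
      intro j hj
      simp only [hg, dif_pos hj]
      exact Finset.orderEmbOfFin_mem P' hP'card _
    have hgi : ∀ j < M, ∀ k < M, j ≠ k → g j ≠ g k := by
      intro j hj k hk hjk he
      simp only [hg, dif_pos hj, dif_pos hk] at he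
      have := (P'.orderEmbOfFin hP'card).injective he
      rw [Fin.mk.injEq] at this
      exact hjk this
    have hch : ∀ j, ∃ (i : ℕ) (d f : Dir) (l1 l2 : List Dir), j < M →
        i < N ∧ OV.VB T L v w i d f l1 l2 ∧ l1.length = g j := by
      intro j
      by_cases hj : j < M
      · have h1 := hPS (hP'sub (hgm j hj))
        rw [hS, Finset.mem_filter] at h1
        obtain ⟨-, -, W, hW, i, d, f, hm⟩ := h1
        rw [hF, Finset.mem_filter, hmem] at hW
        obtain ⟨⟨_, hlab, hV⟩, hw⟩ := hW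
        obtain ⟨A, B', h2, h3⟩ := Sp_mem T v W 0 (g j) i d f hm
        refine ⟨i, d, f, EZ T v A, EZ T v B', fun _ => ⟨?_, ?_, by omega⟩⟩
        · have h7 := lab_mem h2
          rw [hlab.mem_iff, List.mem_range] at h7
          exact h7
        · rw [← hw]
          exact OV.vb_of hV h2
      · exact ⟨0, .xp, .xp, [], [], fun h => absurd h hj⟩
    choose σ d f l1 l2 h using hch
    refine OV.ovr hty e_bas T_Wrep_proof T_rtc_proof hno hv hs hV0 hl1 σ (fun j hj => (h j hj).1)
      d f l1 l2 (fun j hj => by rw [hw0]; exact (h j hj).2.1) ?_ ?_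
    · intro j hj A B' i' d' f' h2
      have h1 := hPS (hP'sub (hgm j hj))
      rw [hS, Finset.mem_filter] at h1
      have h3 : (EZ T v A).length ∈ P0 := by
        rw [hP0, Finset.mem_image]
        refine ⟨(0 + (EZ T v A).length, i', d', f'), ?_, by simp⟩
        rw [h2]; exact mem_Sp T v A B' 0 i' d' f'
      rw [(h j hj).2.2]
      exact h1.2.1 _ h3
    · intro j hj k hk hjk
      rw [(h j hj).2.2, (h k hk).2.2]
      exact hPsep _ (hP'sub (hgm j hj)) _ (hP'sub (hgm k hk)) (hgi j hj k hk hjk)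
  set J : Finset ℕ := (P0 ∪ P).biUnion (fun q => Finset.Ico (q + 1 - D) (q + D)) with hJ
  have hPc : (P0 ∪ P).card ≤ N + M := by
    refine (Finset.card_union_le _ _).trans (Nat.add_le_add ?_ hPM)
    refine Finset.card_image_le.trans ((Sp_card T v W0 0).trans ?_)
    rw [hn0.length_eq, List.length_range]
  have hJc : J.card ≤ (N + M) * (2 * D) := by
    refine Finset.card_biUnion_le.trans ?_
    calc ∑ q ∈ P0 ∪ P, (Finset.Ico (q + 1 - D) (q + D)).card
        ≤ ∑ _q ∈ P0 ∪ P, 2 * D := by
          refine Finset.sum_le_sum fun q _ => ?_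
          rw [Nat.card_Ico]
          omega
      _ = (P0 ∪ P).card * (2 * D) := by rw [Finset.sum_const, smul_eq_mul]
      _ ≤ (N + M) * (2 * D) := Nat.mul_le_mul_right _ hPc
  -- the positions of the blocks
  have hpos : ∀ W ∈ F, ∀ (m i : ℕ) (d f : Dir), (m, i, d, f) ∈ Sp T v 0 W → m ∈ J := by
    intro W hW m i d f hm
    have hWF : W ∈ F := hW
    rw [hF, Finset.mem_filter, hmem] at hW
    obtain ⟨⟨_, hlab, hV⟩, hw⟩ := hW
    obtain ⟨A, B', h1, h2⟩ := Sp_mem T v W 0 m i d f hm
    rw [hJ, Finset.mem_biUnion]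
    by_cases hnear : ∀ p ∈ P0, m + D ≤ p ∨ p + D ≤ m
    · have hmS : m ∈ S := by
        rw [hS, Finset.mem_filter, Finset.mem_range]
        refine ⟨?_, hnear, W, hWF, i, d, f, hm⟩
        have h8 := congrArg List.length hw
        rw [h1, EZ_append, List.length_append] at h8
        omega
      by_cases hmP : m ∈ P
      · refine ⟨m, Finset.mem_union_right _ hmP, ?_⟩
        simp only [Finset.mem_Ico]
        omega
      · by_contra hcon
        have hins : insert m P ∈ S.powerset.filter sep := by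
          rw [Finset.mem_filter, Finset.mem_powerset]
          refine ⟨Finset.insert_subset hmS hPS, ?_⟩
          have hmp : ∀ p ∈ P, m + D ≤ p ∨ p + D ≤ m := by
            intro p hp
            by_contra hc
            apply hcon
            refine ⟨p, Finset.mem_union_right _ hp, ?_⟩
            simp only [Finset.mem_Ico]
            omega
          intro p hp q hq hpq
          rw [Finset.mem_insert] at hp hq
          rcases hp with rfl | hp <;> rcases hq with rfl | hq
          · exact absurd rfl hpq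
          · exact hmp q hq
          · exact (hmp p hp).symm
          · exact hPsep p hp q hq hpq
        have h9 := hmax _ hins
        rw [Finset.card_insert_of_notMem hmP] at h9
        omega
    · push Not at hnear
      obtain ⟨p, hp, h3, h4⟩ := hnear
      refine ⟨p, Finset.mem_union_left _ hp, ?_⟩
      simp only [Finset.mem_Ico]
      omega
  -- the coding
  have hex : ∀ W : List Sz, ∃ g : Fin N → ℕ × Dir × Dir, W ∈ F →
      ∀ i : Fin N, ((g i).1, i.1, (g i).2.1, (g i).2.2) ∈ Sp T v 0 W := by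
    intro W
    by_cases hW : W ∈ F
    · have hW' := hW
      rw [hF, Finset.mem_filter, hmem] at hW'
      obtain ⟨⟨_, hlab, hV⟩, hw⟩ := hW'
      have h1 : ∀ i : Fin N, ∃ q : ℕ × Dir × Dir, (q.1, i.1, q.2.1, q.2.2) ∈ Sp T v 0 W := by
        intro i
        have h2 : i.1 ∈ lab W := hlab.mem_iff.2 (List.mem_range.2 i.2)
        unfold lab at h2
        rw [List.mem_filterMap] at h2
        obtain ⟨s, hs1, hs2⟩ := h2
        cases s with
        | lt e => simp at hs2
        | bl i' d f =>
          simp only [Option.some.injEq] at hs2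
          subst hs2
          obtain ⟨A, B', rfl⟩ := List.append_of_mem hs1
          exact ⟨(0 + (EZ T v A).length, d, f), mem_Sp T v A B' 0 i d f⟩
      choose g hg using h1
      exact ⟨g, fun _ => hg⟩
    · exact ⟨fun _ => (0, .xp, .xp), fun h => absurd h hW⟩
  choose g hg using hex
  have hle : F.card ≤ (Fintype.piFinset (fun _ : Fin N =>
      J ×ˢ ((univ : Finset Dir) ×ˢ (univ : Finset Dir)))).card := by
    refine Finset.card_le_card_of_injOn g ?_ ?_
    · intro W hW
      rw [Finset.mem_coe, Fintype.mem_piFinset]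
      intro i
      rw [Finset.mem_product, Finset.mem_product]
      exact ⟨hpos W hW _ _ _ _ (hg W hW i), Finset.mem_univ _, Finset.mem_univ _⟩
    · intro W hW W' hW' he
      have k1 := hg W hW
      have k2 := hg W' hW'
      rw [Finset.mem_coe, hF, Finset.mem_filter, hmem] at hW hW'
      refine inj T v W W' 0 (by rw [hW.2, hW'.2]) ?_
      have hsub : ∀ (W W' : List Sz), (lab W).Perm (List.range N) → g W = g W' →
          (∀ i : Fin N, ((g W i).1, i.1, (g W i).2.1, (g W i).2.2) ∈ Sp T v 0 W) →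
          (∀ i : Fin N, ((g W' i).1, i.1, (g W' i).2.1, (g W' i).2.2) ∈ Sp T v 0 W') →
          Sp T v 0 W ⊆ Sp T v 0 W' := by
        intro W W' hlab he k1 k2
        rintro ⟨m, i, d, f⟩ hm
        obtain ⟨A, B', h1, h2⟩ := Sp_mem T v W 0 m i d f hm
        have h7 := lab_mem h1
        rw [hlab.mem_iff, List.mem_range] at h7
        have h8 := Sp_unique T v (hlab.nodup_iff.2 List.nodup_range) hm (k1 ⟨i, h7⟩)
        rw [Prod.mk.injEq, Prod.mk.injEq] at h8
        rw [h8.1, h8.2.1, h8.2.2, he]
        exact k2 ⟨i, h7⟩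
      exact Finset.Subset.antisymm (hsub W W' hW.1.2.1 he k1 k2)
        (hsub W' W hW'.1.2.1 he.symm k2 k1)
  refine hle.trans ?_
  rw [Fintype.card_piFinset, Finset.prod_const, Finset.card_univ, Fintype.card_fin,
    Finset.card_product, Finset.card_product, Finset.card_univ]
  have e1 : Fintype.card Dir = 6 := rfl
  rw [e1]
  exact Nat.pow_le_pow_left (Nat.mul_le_mul_right _ hJc) _

end Q123.NS
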